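import Pool.Agent.BRK.AStep

/-!
MP_68cffc_co, many summands, part 7: iteration of the step, the sum of two sets of different
density contains more than half of a coset of codimension proportional to the product of the
two deficiencies.
-/

set_option autoImplicit false

namespace Pool.Agent.BRK

open Finset Real Pool.Agent.BR Pool.Agent.BRQ
open Pool.Agent.DEN68 (un)
open scoped Classical

/-- Transport of a state along an isomorphism. -/
theorem AS_equiv {G G' : Type} [AddCommGroup G] [Fintype G] [AddCommGroup G']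
    [Fintype G'] (f : G ≃+ G') (g : G → ℝ) (g' : G' → ℝ) (hg : ∀ x, g' (f x) = g x)
    (l1 l2 e : ℝ) (h : AS G g l1 l2 e) : AS G' g' l1 l2 e := by
  obtain ⟨h2, g0, g1, p, q, hp, hq, hD, hD', ha⟩ := h
  have hcard : Fintype.card G' = Fintype.card G := Fintype.card_congr f.symm.toEquiv
  have hs : ∀ F : G → ℝ, ∑ x : G', F (f.symm x) = ∑ x, F x := fun F =>
    Fintype.sum_equiv f.symm.toEquiv (fun x : G' => F (f.symm x)) F fun x => rfl
  have hlaw : ∀ p : G → ℝ, IsLaw p → IsLaw (fun x : G' => p (f.symm x)) := fun p hp =>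
    ⟨fun x => hp.nn _, (hs p).trans hp.sum⟩
  have hDf : ∀ p : G → ℝ, Df (fun x : G' => p (f.symm x)) = Df p := by
    intro p
    unfold Df ent
    rw [hcard, hs (fun x => negMulLog (p x))]
  have hx : ∀ x : G', f (f.symm x) = x := fun x => f.apply_symm_apply x
  refine ⟨fun x => ?_, fun x => ?_, fun x => ?_, fun x => p (f.symm x), fun x => q (f.symm x),
    hlaw p hp, hlaw q hq, ?_, ?_, ?_⟩
  · have := congrArg f (h2 (f.symm x))
    rwa [map_add, hx, map_zero] at this
  · have := g0 (f.symm x)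
    rwa [← hg, hx] at this
  · have := g1 (f.symm x)
    rwa [← hg, hx] at this
  · rw [hDf]
    exact hD
  · rw [hDf]
    exact hD'
  · refine le_trans (le_of_eq ?_) ha
    unfold avv av
    have e1 : ∀ x : G', ∑ y : G', q (f.symm y) * g' (x + y) =
        ∑ y, q y * g (f.symm x + y) := by
      intro x
      rw [← hs (fun y => q y * g (f.symm x + y))]
      refine sum_congr rfl fun y _ => ?_
      rw [← hg, map_add, hx, hx]
    simp only [e1]
    exact hs (fun x => p x * ∑ y, q y * g (x + y))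

theorem AS_sub {G : Type} [AddCommGroup G] [Fintype G] (W1 : AddSubgroup G)
    (W2 : AddSubgroup W1) (g : G → ℝ) (c1 : G) (c2 : W1) (l1 l2 e : ℝ)
    (h : AS W2 (fun w : W2 => (fun w : W1 => g (c1 + w)) (c2 + w)) l1 l2 e) :
    ∃ W : AddSubgroup G,
      AS W (fun w => g ((c1 + c2) + w)) l1 l2 e ∧ cod W = cod W1 + cod W2 := by
  refine ⟨W2.map W1.subtype, ?_, (cod_map W1 W2).1⟩
  refine AS_equiv (W2.equivMapOfInjective W1.subtype W1.subtype_injective) _ _ ?_ l1 l2 e h
  intro w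
  show g (c1 + c2 + ((w : W1) : G)) = g (c1 + ((c2 + (w : W1) : W1) : G))
  rw [AddSubgroup.coe_add, add_assoc]

theorem aiter : ∃ C : ℝ, 0 < C ∧
    ∀ (m : ℕ) (j : ℕ), j ≤ m → ∀ (G : Type) [AddCommGroup G] [Fintype G] (g : G → ℝ) (e xi : ℝ),
    AS G g (4 ^ m / 16) (4 ^ j / 16) e → 0 ≤ e → 0 < xi → e + 30 * xi ≤ 1 →
    ∃ (W : AddSubgroup G) (c : G), AS W (fun w => g (c + w)) (1 / 16) (1 / 16) (e + 30 * xi) ∧
      cod W ≤ C * (4 ^ m * 4 ^ j) / xi ^ 4 := by
  obtain ⟨C, hC, hS⟩ := astep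
  refine ⟨C, hC, fun m => ?_⟩
  induction m with
  | zero =>
    intro j hj G _ _ g e xi hst he hxi h6
    obtain rfl : j = 0 := by omega
    refine ⟨⊤, 0, ?_, ?_⟩
    · have h1 : AS (⊤ : AddSubgroup G) (fun w => g (0 + w)) (1 / 16) (1 / 16) e := by
        refine AS_equiv (AddSubgroup.topEquiv (G := G)).symm g _ ?_ (1 / 16) (1 / 16) e ?_
        · intro x
          show g (0 + x) = g x
          rw [zero_add]
        · have h2 := hst
          rw [pow_zero] at h2
          exact h2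
      exact AS_mono h1 le_rfl le_rfl (by linarith)
    · have h1 : cod (⊤ : AddSubgroup G) = 0 := by
        unfold cod
        rw [AddSubgroup.card_top, Nat.card_eq_fintype_card, sub_self]
      rw [h1]
      positivity
  | succ m ih =>
    intro j hj G _ _ g e xi hst he hxi h6
    have h4 : (1 : ℝ) ≤ 4 ^ (m + 1) := one_le_pow₀ (by norm_num)
    have h4j : (1 : ℝ) ≤ 4 ^ j := one_le_pow₀ (by norm_num)
    obtain ⟨W1, c1, hW1, hc1⟩ := hS G g (4 ^ (m + 1) / 16) (4 ^ j / 16) e xi hst (by linarith)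
      (by linarith) he (by linarith) hxi (by linarith)
    have el : (4 : ℝ) ^ (m + 1) / 16 / 4 = 4 ^ m / 16 := by
      rw [pow_succ]
      ring
    rw [el] at hW1
    -- the smaller exponent
    have hj1 : (4 : ℝ) ^ j / 16 / 4 ≤ 4 ^ (j - 1) / 16 := by
      rcases Nat.eq_zero_or_pos j with h0 | h0
      · rw [h0]
        norm_num
      · obtain ⟨i, rfl⟩ : ∃ i, j = i + 1 := ⟨j - 1, by omega⟩
        rw [Nat.add_sub_cancel, pow_succ]
        linarith
    have hj2 : (4 : ℝ) ^ (j - 1) ≤ 4 ^ j := pow_le_pow_right₀ (by norm_num) (by omega)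
    obtain ⟨W2, c2, hW2, hc2⟩ := ih (j - 1) (by omega) W1 (fun w => g (c1 + w)) (e + 3 * xi)
      (9 / 10 * xi) (AS_mono hW1 le_rfl hj1 le_rfl) (by linarith) (by linarith) (by linarith)
    obtain ⟨W, hW, hcod⟩ := AS_sub W1 W2 g c1 c2 _ _ _ hW2
    refine ⟨W, c1 + c2, ?_, ?_⟩
    · have ee : e + 3 * xi + 30 * (9 / 10 * xi) = e + 30 * xi := by ring
      rw [ee] at hW
      exact hW
    · rw [hcod]
      obtain ⟨R, hR⟩ : ∃ R : ℝ, R = C * (4 ^ m * 4 ^ j) / xi ^ 4 := ⟨_, rfl⟩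
      have hR0 : 0 ≤ R := by
        rw [hR]
        positivity
      have e1 : C * (4 ^ (m + 1) / 16 * (4 ^ j / 16)) / xi ^ 4 = 1 / 64 * R := by
        rw [hR, pow_succ]
        field_simp
        ring
      have e2 : C * (4 ^ m * 4 ^ (j - 1)) / (9 / 10 * xi) ^ 4 ≤ 10000 / 6561 * R := by
        have e4 : 10000 / 6561 * R = C * (4 ^ m * 4 ^ j) / (9 / 10 * xi) ^ 4 := by
          rw [hR]
          field_simp
          ring
        rw [e4]
        exact div_le_div_of_nonneg_right (mul_le_mul_of_nonneg_left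
          (mul_le_mul_of_nonneg_left hj2 (by positivity)) hC.le) (by positivity)
      have e3 : C * (4 ^ (m + 1) * 4 ^ j) / xi ^ 4 = 4 * R := by
        rw [hR, pow_succ]
        ring
      rw [e1] at hc1
      rw [e3]
      linarith

/-- The end. -/
theorem aend (G : Type) [AddCommGroup G] [Fintype G] (g : G → ℝ) (e : ℝ)
    (hS : AS G g (1 / 16) (1 / 16) e) : (∑ x, g x) / Fintype.card G ≤ e + 1 / 4 := by
  obtain ⟨p, q, hp, hq, hD, hD', he⟩ := hS.ex
  have hs : sqrt (Df p) ≤ 1 / 4 := by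
    rw [sqrt_le_left (by norm_num)]
    norm_num
    linarith
  have h1 : ∀ y, (∑ x, g x) / Fintype.card G - 1 / 4 ≤ ∑ x, p x * g (x + y) := by
    intro y
    have h2 := Quot_tv p (fun x => g (x + y)) hp (fun x => hS.g0 _) (fun x => hS.g1 _)
    rw [sum_shift y g] at h2
    have h3 : sqrt (log (Fintype.card G) - ent p) ≤ 1 / 4 := hs
    linarith
  have h4 : avv g p q = ∑ y, q y * ∑ x, p x * g (x + y) := by
    unfold avv av
    simp only [mul_sum]
    rw [sum_comm]
    refine sum_congr rfl fun y _ => sum_congr rfl fun x _ => ?_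
    ring
  have h5 : ∑ y, q y * ((∑ x, g x) / Fintype.card G - 1 / 4) ≤ avv g p q := by
    rw [h4]
    exact sum_le_sum fun y _ => mul_le_mul_of_nonneg_left (h1 y) (hq.nn y)
  rw [← sum_mul, hq.sum, one_mul] at h5
  linarith

/-- a power of four near `16 l` -/
theorem apow {l : ℝ} (hl : 1 / 16 ≤ l) : ∃ m : ℕ, 16 * l ≤ 4 ^ m ∧ (4 : ℝ) ^ m ≤ 64 * l := by
  obtain ⟨m0, hm0⟩ := pow_unbounded_of_one_lt (16 * l) (show (1 : ℝ) < 4 by norm_num)
  have hex : ∃ m : ℕ, 16 * l ≤ 4 ^ m := ⟨m0, hm0.le⟩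
  refine ⟨Nat.find hex, Nat.find_spec hex, ?_⟩
  rcases Nat.eq_zero_or_pos (Nat.find hex) with h0 | h0
  · rw [h0, pow_zero]
    linarith
  · obtain ⟨j, hj⟩ := Nat.exists_eq_succ_of_ne_zero h0.ne'
    have h2 : ¬ 16 * l ≤ (4 : ℝ) ^ j := Nat.find_min hex (by omega)
    rw [hj, Nat.succ_eq_add_one, pow_succ]
    push Not at h2
    linarith

/-- Two sets of deficiencies `≤ l1`, `≤ l2`. -/
theorem aquad : ∃ C : ℝ, 1 ≤ C ∧
    ∀ (G : Type) [AddCommGroup G] [Fintype G], (∀ x : G, x + x = 0) →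
    ∀ (A B : Finset G) (l1 l2 : ℝ), A.Nonempty → B.Nonempty →
    log (Fintype.card G) - log A.card ≤ l1 → log (Fintype.card G) - log B.card ≤ l2 →
    1 / 16 ≤ l2 → l2 ≤ l1 →
    ∃ (W : AddSubgroup G) (z : G), cod W ≤ C * (l1 * l2) ∧
      (Nat.card W : ℝ) < 2 * ((BRQ.slice (ss A B) W z).card : ℝ) := by
  obtain ⟨C, hC, hI⟩ := aiter
  refine ⟨C * 240 ^ 4 * 64 ^ 2 + 1, by nlinarith, ?_⟩
  intro G _ _ h2 A B l1 l2 hA hB hcA hcB hl2 hl12
  have hl20 : 0 < l2 := by linarith
  have hl10 : 0 < l1 := by linarith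
  obtain ⟨m, hm1, hm2⟩ := apow (hl2.trans hl12)
  obtain ⟨j0, hj1, hj2⟩ := apow hl2
  obtain ⟨j, hjm, hj1', hj2'⟩ : ∃ j : ℕ, j ≤ m ∧ 16 * l2 ≤ 4 ^ j ∧ (4 : ℝ) ^ j ≤ 64 * l2 := by
    rcases le_total j0 m with h | h
    · exact ⟨j0, h, hj1, hj2⟩
    · exact ⟨m, le_rfl, by linarith, (pow_le_pow_right₀ (by norm_num) h).trans hj2⟩
  set g : G → ℝ := fun x => if x ∈ ss A B then (0 : ℝ) else 1 with hg
  have hst : AS G g (4 ^ m / 16) (4 ^ j / 16) 0 := by
    refine ⟨h2, fun x => ?_, fun x => ?_, un A, un B, ?_⟩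
    · show (0 : ℝ) ≤ if x ∈ ss A B then (0 : ℝ) else 1
      split_ifs <;> norm_num
    · show (if x ∈ ss A B then (0 : ℝ) else 1) ≤ 1
      split_ifs <;> norm_num
    · refine ⟨Incr_un_law hA, Incr_un_law hB, ?_, ?_, ?_⟩
      · unfold Df
        rw [ClassD_ent hA]
        linarith
      · unfold Df
        rw [ClassD_ent hB]
        linarith
      · refine le_of_eq ?_
        unfold avv av
        refine sum_eq_zero fun x _ => ?_
        rcases eq_or_ne (un A x) 0 with h0 | h0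
        · rw [h0, zero_mul]
        · rw [sum_eq_zero, mul_zero]
          intro y _
          rcases eq_or_ne (un B y) 0 with h0' | h0'
          · rw [h0', zero_mul]
          · have h3 : x + y ∈ ss A B :=
              (mem_ss A B _).2 ⟨x, Incr_un_mem h0, y, Incr_un_mem h0', rfl⟩
            rw [hg]
            simp only [if_pos h3, mul_zero]
  obtain ⟨W, c, hW, hcod⟩ := hI m j hjm G g 0 (1 / 240) hst le_rfl (by norm_num) (by norm_num)
  have hav := aend W _ _ hW
  have hWp : (0 : ℝ) < (Nat.card W : ℝ) := by exact_mod_cast Nat.card_pos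
  refine ⟨W, c, ?_, ?_⟩
  · have h3 : (4 : ℝ) ^ m * 4 ^ j ≤ (64 * l1) * (64 * l2) :=
      mul_le_mul hm2 hj2' (by positivity) (by positivity)
    calc cod W ≤ C * (4 ^ m * 4 ^ j) / (1 / 240) ^ 4 := hcod
      _ = C * 240 ^ 4 * (4 ^ m * 4 ^ j) := by ring
      _ ≤ C * 240 ^ 4 * ((64 * l1) * (64 * l2)) := mul_le_mul_of_nonneg_left h3 (by positivity)
      _ = C * 240 ^ 4 * 64 ^ 2 * (l1 * l2) := by ring
      _ ≤ (C * 240 ^ 4 * 64 ^ 2 + 1) * (l1 * l2) := by nlinarith [mul_pos hl10 hl20]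
  · have e1 : ∑ w : W, g (c + (w : G)) = (Fintype.card W : ℝ) - (slice (ss A B) W c).card := by
      have e2 : ∀ w : W, g (c + (w : G)) = 1 - if c + (w : G) ∈ ss A B then (1 : ℝ) else 0 := by
        intro w
        rw [hg]
        show (if c + (w : G) ∈ ss A B then (0 : ℝ) else 1) = _
        split_ifs <;> norm_num
      simp only [e2]
      rw [sum_sub_distrib, sum_boole, sum_const, card_univ, nsmul_eq_mul, mul_one]
      rfl
    rw [e1, div_le_iff₀ (by rw [← Nat.card_eq_fintype_card]; exact hWp),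
      ← Nat.card_eq_fintype_card] at hav
    linarith

end Pool.Agent.BRK
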