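import Pool.Agent.BRK.Many
import Pool.Agent.BRQ.Main

/-!
MP_68cffc_co, many summands, part 6: the quadratic step for two laws of different deficiency,
with codimension proportional to the product of the two deficiencies.
-/

set_option autoImplicit false

namespace Pool.Agent.BRK

open Finset Real Pool.Agent.BR Pool.Agent.BRQ
open scoped Classical

/-- A state with two bounds. -/
structure AS (G : Type) [AddCommGroup G] [Fintype G] (g : G → ℝ) (l1 l2 e : ℝ) : Prop where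
  h2 : ∀ x : G, x + x = 0
  g0 : ∀ x, 0 ≤ g x
  g1 : ∀ x, g x ≤ 1
  ex : ∃ p q : G → ℝ, IsLaw p ∧ IsLaw q ∧ Df p ≤ l1 ∧ Df q ≤ l2 ∧ avv g p q ≤ e

theorem AS_mono {G : Type} [AddCommGroup G] [Fintype G] {g : G → ℝ} {l1 l2 e l1' l2' e' : ℝ}
    (h : AS G g l1 l2 e) (h1 : l1 ≤ l1') (h2 : l2 ≤ l2') (he : e ≤ e') : AS G g l1' l2' e' := by
  obtain ⟨a, b, c, p, q, hp, hq, h3, h4, h5⟩ := h
  exact ⟨a, b, c, p, q, hp, hq, h3.trans h1, h4.trans h2, h5.trans he⟩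

/-- Choice of the pieces, with two weights. -/
theorem choose3 (G : Type) [AddCommGroup G] [Fintype G] (W : AddSubgroup G) (g p q : G → ℝ)
    (a b : ℝ) (hp : IsLaw p) (hq : IsLaw q) :
    ∃ x y : G, IsLaw (fw W p x) ∧ IsLaw (fw W q y) ∧
    avv (fun w : W => g (x + y + w)) (fw W p x) (fw W q y) +
      (a * Df (fw W p x) + b * Df (fw W q y)) ≤ avv g p q + (a * DW W p + b * DW W q) := by
  set A : G → G → ℝ := fun x y => avv (fun w : W => g (x + y + w)) (fw W p x) (fw W q y) with hAd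
  have hlawp : ∀ x, p x ≠ 0 → IsLaw (fw W p x) := fun x hx => DW_law W hp hx
  have hlawq : ∀ x, q x ≠ 0 → IsLaw (fw W q x) := fun x hx => DW_law W hq hx
  -- the identity
  have hid : ∑ x, p x * ∑ y, q y * A x y = avv g p q := by
    have e1 : ∀ x, ∑ y, q y * A x y =
        ∑ w : W, fw W p x w * ∑ y, q y * ∑ w' : W, fw W q y w' * g (x + w + (y + w')) := by
      intro x
      simp only [hAd, avv, av, mul_sum]
      rw [sum_comm]
      refine sum_congr rfl fun w _ => ?_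
      refine sum_congr rfl fun y _ => ?_
      refine sum_congr rfl fun w' _ => ?_
      rw [AddSubgroup.coe_add, show x + y + ((w : G) + w') = x + w + (y + w') by abel]
      ring
    have e2 : ∀ z : G, ∑ y, q y * ∑ w' : W, fw W q y w' * g (z + (y + w')) =
        ∑ y, q y * g (z + y) := fun z => DW_avg W hq (fun y => g (z + y))
    have e3 : ∀ x, ∑ y, q y * A x y = ∑ w : W, fw W p x w * av g q (x + w) := by
      intro x
      rw [e1 x]
      refine sum_congr rfl fun w _ => ?_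
      rw [e2 (x + w)]
      rfl
    simp only [e3]
    rw [DW_avg W hp (av g q)]
    rfl
  by_contra hcon
  push Not at hcon
  -- the average
  have hav : ∑ x, p x * ∑ y, q y * (A x y + (a * Df (fw W p x) + b * Df (fw W q y))) =
      avv g p q + (a * DW W p + b * DW W q) := by
    have e1 : ∀ x, ∑ y, q y * (A x y + (a * Df (fw W p x) + b * Df (fw W q y))) =
        (∑ y, q y * A x y) + (a * Df (fw W p x) + b * DW W q) := by
      intro x
      unfold DW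
      have e2 : ∑ y, q y * (a * Df (fw W p x)) = a * Df (fw W p x) := by
        rw [← sum_mul, hq.sum, one_mul]
      have e5 : ∑ y, q y * (A x y + (a * Df (fw W p x) + b * Df (fw W q y))) =
          (∑ y, q y * A x y) + (∑ y, q y * (a * Df (fw W p x)) +
            ∑ y, b * (q y * Df (fw W q y))) := by
        rw [← sum_add_distrib, ← sum_add_distrib]
        refine sum_congr rfl fun y _ => ?_
        ring
      rw [e5, e2, ← mul_sum]
    simp only [e1]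
    rw [← hid]
    have e3 : a * DW W p + b * DW W q =
        ∑ x, p x * (a * Df (fw W p x)) + ∑ x, p x * (b * DW W q) := by
      have e4 : ∑ x, p x * (b * DW W q) = b * DW W q := by
        rw [← sum_mul, hp.sum, one_mul]
      rw [e4]
      congr 1
      unfold DW
      rw [mul_sum]
      exact sum_congr rfl fun x _ => by ring
    rw [e3, ← sum_add_distrib, ← sum_add_distrib]
    refine sum_congr rfl fun x _ => ?_
    ring
  have hlt : ∑ x, p x * ∑ y, q y * (avv g p q + (a * DW W p + b * DW W q)) <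
      ∑ x, p x * ∑ y, q y * (A x y + (a * Df (fw W p x) + b * Df (fw W q y))) := by
    have hin : ∀ x, p x ≠ 0 → ∑ y, q y * (avv g p q + (a * DW W p + b * DW W q)) <
        ∑ y, q y * (A x y + (a * Df (fw W p x) + b * Df (fw W q y))) := by
      intro x hx
      refine sum_lt_sum (fun y _ => ?_) ?_
      · rcases eq_or_ne (q y) 0 with h0 | h0
        · rw [h0, zero_mul, zero_mul]
        · exact mul_le_mul_of_nonneg_left (hcon x y (hlawp x hx) (hlawq y h0)).le (hq.nn y)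
      · obtain ⟨y, hy⟩ : ∃ y, q y ≠ 0 := by
          by_contra hc
          push Not at hc
          have h5 := hq.sum
          simp only [hc, sum_const_zero] at h5
          exact zero_ne_one h5
        exact ⟨y, mem_univ y, mul_lt_mul_of_pos_left (hcon x y (hlawp x hx) (hlawq y hy))
          (lt_of_le_of_ne (hq.nn y) hy.symm)⟩
    refine sum_lt_sum (fun x _ => ?_) ?_
    · rcases eq_or_ne (p x) 0 with h0 | h0
      · rw [h0, zero_mul, zero_mul]
      · exact mul_le_mul_of_nonneg_left (hin x h0).le (hp.nn x)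
    · obtain ⟨x, hx⟩ : ∃ x, p x ≠ 0 := by
        by_contra hc
        push Not at hc
        have h5 := hp.sum
        simp only [hc, sum_const_zero] at h5
        exact zero_ne_one h5
      exact ⟨x, mem_univ x, mul_lt_mul_of_pos_left (hin x hx) (lt_of_le_of_ne (hp.nn x) hx.symm)⟩
  rw [hav] at hlt
  simp only [← sum_mul, hp.sum, hq.sum, one_mul] at hlt
  exact lt_irrefl _ hlt

/-- The numerical end of the step. -/
theorem astep_num (c xi l1 l2 N1 N2 dq dp : ℝ) (hc : 0 < c) (hxi0 : 0 < xi) (hxi1 : xi ≤ 1)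
    (hl1 : 1 / 16 ≤ l1) (hl2 : 1 / 16 ≤ l2) (hN10 : 0 ≤ N1) (hN20 : 0 ≤ N2)
    (hN1 : N1 ≤ 32 * l1 / (c * xi ^ 3) + 1) (hN2 : N2 ≤ 32 * l2 / (c * xi ^ 3) + 1)
    (hq : dq ≤ l2) (hp : dp ≤ 2 * (l1 / xi)) :
    8 * N1 * dq + 8 * log 2 + (8 * N2 * dp + 8 * log 2) ≤
      (768 / c + 4480) * (l1 * l2) / xi ^ 4 := by
  have hl10 : 0 < l1 := by linarith
  have hl20 : 0 < l2 := by linarith
  have hlog : log 2 ≤ 1 := by
    have := Real.log_two_lt_d9
    linarith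
  obtain ⟨R, hR⟩ : ∃ R : ℝ, R = l1 * l2 / xi ^ 4 := ⟨_, rfl⟩
  have hx4 : 0 < xi ^ 4 := by positivity
  have hx41 : xi ^ 4 ≤ xi := by
    calc xi ^ 4 ≤ xi ^ 1 := pow_le_pow_of_le_one hxi0.le hxi1 (by norm_num)
      _ = xi := pow_one _
  have hR0 : 0 < R := by rw [hR]; positivity
  have hR1 : l1 / xi ≤ 16 * R := by
    rw [hR, ← mul_div_assoc, div_le_div_iff₀ hxi0 hx4]
    have e1 : l1 ≤ 16 * (l1 * l2) := by nlinarith
    calc l1 * xi ^ 4 ≤ 16 * (l1 * l2) * xi ^ 4 := mul_le_mul_of_nonneg_right e1 hx4.le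
      _ ≤ 16 * (l1 * l2) * xi := mul_le_mul_of_nonneg_left hx41 (by positivity)
  have hR1' : l2 ≤ 16 * R := by
    rw [hR, ← mul_div_assoc, le_div_iff₀ hx4]
    have e1 : l2 ≤ 16 * (l1 * l2) := by nlinarith
    calc l2 * xi ^ 4 ≤ 16 * (l1 * l2) * 1 := mul_le_mul e1 (hx41.trans hxi1) hx4.le (by positivity)
      _ = 16 * (l1 * l2) := mul_one _
  have hR2 : 1 ≤ 256 * R := by
    rw [hR, ← mul_div_assoc, le_div_iff₀ hx4]
    have e1 : 1 ≤ 256 * (l1 * l2) := by nlinarith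
    have e2 : xi ^ 4 ≤ 1 := hx41.trans hxi1
    linarith
  have h1 : 8 * N1 * dq ≤ 8 * (32 * l1 / (c * xi ^ 3) + 1) * l2 := by
    calc 8 * N1 * dq ≤ 8 * N1 * l2 := mul_le_mul_of_nonneg_left hq (by positivity)
      _ ≤ 8 * (32 * l1 / (c * xi ^ 3) + 1) * l2 :=
        mul_le_mul_of_nonneg_right (by linarith) hl20.le
  have h2 : 8 * N2 * dp ≤ 8 * (32 * l2 / (c * xi ^ 3) + 1) * (2 * (l1 / xi)) := by
    calc 8 * N2 * dp ≤ 8 * N2 * (2 * (l1 / xi)) := mul_le_mul_of_nonneg_left hp (by positivity)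
      _ ≤ 8 * (32 * l2 / (c * xi ^ 3) + 1) * (2 * (l1 / xi)) :=
        mul_le_mul_of_nonneg_right (by linarith) (by positivity)
  have h3 : 8 * (32 * l1 / (c * xi ^ 3) + 1) * l2 = 256 / c * (R * xi) + 8 * l2 := by
    rw [hR]
    field_simp
    ring
  have h4 : 8 * (32 * l2 / (c * xi ^ 3) + 1) * (2 * (l1 / xi)) = 512 / c * R + 16 * (l1 / xi) := by
    rw [hR]
    field_simp
    ring
  have e3 : (768 / c + 4480) * (l1 * l2) / xi ^ 4 = 768 / c * R + 4480 * R := by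
    rw [hR]
    ring
  have h5 : 256 / c * (R * xi) ≤ 256 / c * R :=
    mul_le_mul_of_nonneg_left (by nlinarith) (by positivity)
  have h6 : 768 / c * R = 256 / c * R + 512 / c * R := by ring
  rw [e3]
  linarith

/-- The step. -/
theorem astep : ∃ C : ℝ, 0 < C ∧
    ∀ (G : Type) [AddCommGroup G] [Fintype G] (g : G → ℝ) (l1 l2 e xi : ℝ), AS G g l1 l2 e →
    1 / 16 ≤ l1 → 1 / 16 ≤ l2 → 0 ≤ e → e ≤ 1 → 0 < xi → xi ≤ 1 →
    ∃ (W : AddSubgroup G) (c : G), AS W (fun w => g (c + w)) (l1 / 4) (l2 / 4) (e + 3 * xi) ∧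
      cod W ≤ C * (l1 * l2) / xi ^ 4 := by
  have hS : St_LemS := thm_LemS thm_Samp thm_Cond thm_Diag
  have h3 : BR.St_DW := thm_DW
  have h2 : BR.St_Gibbs := thm_Gibbs
  obtain ⟨c, hc0, hc1, hOV⟩ := thm_OV2 hS (thm_Core h3) (thm_Inv h3) h3 sdpi
  refine ⟨768 / c + 4480, by positivity, ?_⟩
  intro G _ _ g l1 l2 e xi hst hl1 hl2 he0 he1 hxi0 hxi1
  obtain ⟨p, q, hp, hq, hpl, hql, havv⟩ := hst.ex
  have hDp0 : 0 ≤ Df p := Df_nonneg hp
  have hDq0 : 0 ≤ Df q := Df_nonneg hq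
  have hl10 : 0 < l1 := by linarith
  have hl20 : 0 < l2 := by linarith
  obtain ⟨K1, hK1⟩ : ∃ K1 : ℝ, K1 = l1 / xi := ⟨_, rfl⟩
  obtain ⟨K2, hK2⟩ : ∃ K2 : ℝ, K2 = l2 / xi := ⟨_, rfl⟩
  have hK1p : 0 < K1 := by rw [hK1]; positivity
  have hK2p : 0 < K2 := by rw [hK2]; positivity
  have hlK1 : l1 = K1 * xi := by rw [hK1]; field_simp
  have hlK2 : l2 = K2 * xi := by rw [hK2]; field_simp
  -- the first Gibbs law
  obtain ⟨ph, hph⟩ : ∃ ph : G → ℝ, ph = gib K1 (av g q) := ⟨_, rfl⟩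
  obtain ⟨hphl, hphi⟩ := h2 G K1 (av g q) p hp
  rw [← hph] at hphl hphi
  have hph1 : Df ph + K1 * avv g ph q ≤ Df p + K1 * avv g p q := hphi
  have hDph0 : 0 ≤ Df ph := Df_nonneg hphl
  have hav1 : 0 ≤ avv g ph q := Step_avv_nonneg hst.g0 hphl hq
  have hb1 : K1 * avv g p q ≤ K1 * e := mul_le_mul_of_nonneg_left havv hK1p.le
  have hDph : Df ph ≤ 2 * K1 := by
    have h5 : 0 ≤ K1 * avv g ph q := mul_nonneg hK1p.le hav1
    have h6 : K1 * e ≤ K1 := by nlinarith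
    have h7 : l1 ≤ K1 := by nlinarith
    linarith
  have hA1 : avv g ph q ≤ e + xi := by
    have : K1 * avv g ph q ≤ K1 * (e + xi) := by nlinarith
    exact le_of_mul_le_mul_left this hK1p
  -- the second Gibbs law
  obtain ⟨ch, hch⟩ : ∃ ch : G → ℝ, ch = gib K2 (av g ph) := ⟨_, rfl⟩
  obtain ⟨hchl, hchi⟩ := h2 G K2 (av g ph) q hq
  rw [← hch] at hchl hchi
  have hch1 : Df ch + K2 * avv g ch ph ≤ Df q + K2 * avv g q ph := hchi
  have hDch0 : 0 ≤ Df ch := Df_nonneg hchl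
  have hA2 : avv g ph ch ≤ e + 2 * xi := by
    rw [Step_avv_comm g ph ch]
    rw [Step_avv_comm g q ph] at hch1
    have h5 : K2 * avv g ph q ≤ K2 * (e + xi) := mul_le_mul_of_nonneg_left hA1 hK2p.le
    have : K2 * avv g ch ph ≤ K2 * (e + 2 * xi) := by nlinarith
    exact le_of_mul_le_mul_left this hK2p
  -- the numbers of samples
  have hsam : ∀ l K : ℝ, 0 < l → K = l / xi → ∃ N : ℕ, 1 ≤ N ∧ (N : ℝ) ≤ 32 * l / (c * xi ^ 3) + 1 ∧
      ∀ d : ℝ, c * d ≤ K ^ 2 / N → d ≤ l * xi / 32 := by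
    intro l K hl hK
    obtain ⟨A, hA⟩ : ∃ A : ℝ, A = 32 * l / (c * xi ^ 3) := ⟨_, rfl⟩
    have hAp : 0 < A := by rw [hA]; positivity
    have hKp : 0 < K := by rw [hK]; positivity
    refine ⟨⌈A⌉₊, Nat.one_le_iff_ne_zero.mpr (Nat.ceil_pos.mpr hAp).ne', ?_, ?_⟩
    · rw [← hA]
      exact (Nat.ceil_lt_add_one hAp.le).le
    · intro d hd
      have h10 : K ^ 2 / (⌈A⌉₊ : ℝ) ≤ K ^ 2 / A :=
        div_le_div_of_nonneg_left (by positivity) hAp (Nat.le_ceil A)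
      have h11 : K ^ 2 / A = c * (l * xi / 32) := by
        rw [hA, hK]
        field_simp
      have h12 : c * d ≤ c * (l * xi / 32) := by linarith
      exact le_of_mul_le_mul_left h12 hc0
  obtain ⟨N1, hN11, hN1u, hkey1⟩ := hsam l1 K1 hl10 hK1
  obtain ⟨N2, hN21, hN2u, hkey2⟩ := hsam l2 K2 hl20 hK2
  obtain ⟨W₁, hW1c, hW1d⟩ := hOV G hst.h2 K1 N1 g q hK1p hN11 hst.g0 hst.g1 hq
  obtain ⟨W₂, hW2c, hW2d⟩ := hOV G hst.h2 K2 N2 g ph hK2p hN21 hst.g0 hst.g1 hphl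
  rw [← hph] at hW1d
  rw [← hch] at hW2d
  have hd1 : DW W₁ ph ≤ l1 * xi / 32 := hkey1 _ hW1d
  have hd2 : DW W₂ ch ≤ l2 * xi / 32 := hkey2 _ hW2d
  have hm1 : DW (W₁ ⊓ W₂) ph ≤ DW W₁ ph := (h3 G (W₁ ⊓ W₂) W₁ ph hphl).2.2.1 inf_le_left
  have hm2 : DW (W₁ ⊓ W₂) ch ≤ DW W₂ ch := (h3 G (W₁ ⊓ W₂) W₂ ch hchl).2.2.1 inf_le_right
  have he2 : 0 < e + 3 * xi := by linarith
  obtain ⟨a, ha⟩ : ∃ a : ℝ, a = 4 * (e + 3 * xi) / l1 := ⟨_, rfl⟩
  obtain ⟨b, hb⟩ : ∃ b : ℝ, b = 4 * (e + 3 * xi) / l2 := ⟨_, rfl⟩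
  have ha0 : 0 < a := by
    rw [ha]
    positivity
  have hb0 : 0 < b := by
    rw [hb]
    positivity
  obtain ⟨x, y, hx, hy, hxy⟩ := choose3 G (W₁ ⊓ W₂) g ph ch a b hphl hchl
  have hDx : 0 ≤ Df (fw (W₁ ⊓ W₂) ph x) := Df_nonneg hx
  have hDy : 0 ≤ Df (fw (W₁ ⊓ W₂) ch y) := Df_nonneg hy
  have hvv : 0 ≤ avv (fun w : (W₁ ⊓ W₂ : AddSubgroup G) => g (x + y + w))
      (fw (W₁ ⊓ W₂) ph x) (fw (W₁ ⊓ W₂) ch y) :=
    Step_avv_nonneg (fun w => hst.g0 _) hx hy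
  have hupper : avv g ph ch + (a * DW (W₁ ⊓ W₂) ph + b * DW (W₁ ⊓ W₂) ch) ≤ e + 3 * xi := by
    have e1 : a * DW (W₁ ⊓ W₂) ph ≤ a * (l1 * xi / 32) :=
      mul_le_mul_of_nonneg_left (by linarith) ha0.le
    have e1' : b * DW (W₁ ⊓ W₂) ch ≤ b * (l2 * xi / 32) :=
      mul_le_mul_of_nonneg_left (by linarith) hb0.le
    have e2 : a * (l1 * xi / 32) = (e + 3 * xi) / 8 * xi := by
      rw [ha]
      field_simp
      ring
    have e2' : b * (l2 * xi / 32) = (e + 3 * xi) / 8 * xi := by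
      rw [hb]
      field_simp
      ring
    have e3 : (e + 3 * xi) / 8 * xi ≤ 1 / 2 * xi :=
      mul_le_mul_of_nonneg_right (by linarith) hxi0.le
    linarith
  have hfin := hxy.trans hupper
  have hax : 0 ≤ a * Df (fw (W₁ ⊓ W₂) ph x) := by positivity
  have hby : 0 ≤ b * Df (fw (W₁ ⊓ W₂) ch y) := by positivity
  refine ⟨W₁ ⊓ W₂, x + y, ⟨?_, fun w => hst.g0 _, fun w => hst.g1 _, ?_⟩, ?_⟩
  · intro w
    apply Subtype.ext
    exact hst.h2 w.1
  · refine ⟨_, _, hx, hy, ?_, ?_, ?_⟩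
    · have e1 : a * Df (fw (W₁ ⊓ W₂) ph x) ≤ a * (l1 / 4) := by
        have e2 : a * (l1 / 4) = e + 3 * xi := by
          rw [ha]
          field_simp
        rw [e2]
        linarith
      exact le_of_mul_le_mul_left e1 ha0
    · have e1 : b * Df (fw (W₁ ⊓ W₂) ch y) ≤ b * (l2 / 4) := by
        have e2 : b * (l2 / 4) = e + 3 * xi := by
          rw [hb]
          field_simp
        rw [e2]
        linarith
      exact le_of_mul_le_mul_left e1 hb0
    · linarith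
  -- the codimension
  have hc2 := Step_cod_inf W₁ W₂
  have hN10 : (0 : ℝ) ≤ (N1 : ℝ) := Nat.cast_nonneg _
  have hN20 : (0 : ℝ) ≤ (N2 : ℝ) := Nat.cast_nonneg _
  have hend := astep_num c xi l1 l2 N1 N2 (Df q) (Df ph) hc0 hxi0 hxi1 hl1 hl2 hN10 hN20 hN1u hN2u
    hql (by rw [← hK1]; exact hDph)
  linarith

end Pool.Agent.BRK
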