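import Pool.Agent.BRQ.MainD

/-!
MP_68cffc_co, many summands, part 1: two different sets. The proof of
`Pool.Agent.BRQ.dense` (section 9 of `/team-store/BRQ_paper.md`) for `S = A₁ + A₂`, `x ∈ A₁`,
`y i ∈ A₂`, weight `1 / M` of the `y i` and `N ≤ r` points, `M ≥ r`.
-/

set_option autoImplicit false

namespace Pool.Agent.BRK

open Finset Real Pool.Agent.BR Pool.Agent.BRQ
open Pool.Agent.DEN68 (un)
open scoped Classical

theorem minW (h1 : St_fN) (h2 : St_Joint) (h3 : St_Star) (h4 : St_Trans) {G : Type}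
    [AddCommGroup G] [Fintype G] (M r : ℕ) (S : Finset G) (hS : S.Nonempty) (hM : 1 ≤ M) :
    ∃ W : AddSubgroup G,
  (∀ N, 1 ≤ N → N ≤ r → ∀ H : AddSubgroup W,
    fN M S W N ≤ fN M S (H.map W.subtype) N + cod H / M) ∧
  (∀ N, 1 ≤ N → N ≤ r → fN M S W N ≤ fN M S ⊤ N) ∧
  cod W / M ≤ ∑ N ∈ Icc 1 r, fN M S ⊤ N := by
  have hM0 : (0 : ℝ) < M := by exact_mod_cast hM
  obtain ⟨W, hW⟩ := Finite.exists_min (fun W : AddSubgroup G =>
    ∑ N ∈ Icc 1 r, fN M S W N + cod W / M)
  refine ⟨W, ?_, ?_, ?_⟩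
  · intro N hN1 hNM H
    have h5 := hW (H.map W.subtype)
    have h6 : cod (H.map W.subtype) = cod W + cod H := (h4 G M N S W H hS).1
    rw [h6, add_div] at h5
    have h7 : fN M S W N - fN M S (H.map W.subtype) N ≤
        ∑ N ∈ Icc 1 r, (fN M S W N - fN M S (H.map W.subtype) N) := by
      refine single_le_sum (f := fun N => fN M S W N - fN M S (H.map W.subtype) N)
        (fun n _ => ?_) (mem_Icc.2 ⟨hN1, hNM⟩)
      have := MinW_mono h1 h2 h3 h4 hS hM n W H
      linarith
    rw [sum_sub_distrib] at h7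
    linarith
  · intro N _ _
    have h5 := MinW_mono h1 h2 h3 h4 hS hM N ⊤ (W.comap (⊤ : AddSubgroup G).subtype)
    have h6 : (W.comap (⊤ : AddSubgroup G).subtype).map (⊤ : AddSubgroup G).subtype = W := by
      ext x
      constructor
      · rintro ⟨y, hy, rfl⟩
        exact hy
      · intro hx
        exact ⟨⟨x, AddSubgroup.mem_top x⟩, hx, rfl⟩
    rw [h6] at h5
    exact h5
  · have h5 := hW ⊤
    have h6 : cod (⊤ : AddSubgroup G) = 0 := by
      unfold cod
      rw [AddSubgroup.card_top, Nat.card_eq_fintype_card, sub_self]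
    rw [h6, zero_div, add_zero] at h5
    have h7 : 0 ≤ ∑ N ∈ Icc 1 r, fN M S W N := sum_nonneg fun n _ => MinW_nonneg h1 h2 hS hM n W
    linarith

/-- The increment for a minimal `W`, range `r`. -/
theorem incr (h1 : St_fN) (h2 : St_Drop) (h3 : St_Joint) (h4 : St_Star) (h5 : St_Trans)
    (h6 : St_ClassD) (h7 : St_DiagU) : ∃ C : ℝ, 1 ≤ C ∧
  ∀ (G : Type) [AddCommGroup G] [Fintype G], (∀ x : G, x + x = 0) →
  ∀ (M r : ℕ) (S : Finset G) (W : AddSubgroup G), S.Nonempty → 1 ≤ M →
  (∀ N, 1 ≤ N → N ≤ r → ∀ H : AddSubgroup W,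
    fN M S W N ≤ fN M S (H.map W.subtype) N + cod H / M) →
  ∀ n : ℕ, n + 1 ≤ r → fN M S W n ≤ fN M S W (n + 1) ∧
    fN M S W (n + 1) ≤ C * (n + 1) * (fN M S W (n + 1) - fN M S W n) + 8 * log 2 / M := by
  obtain ⟨C0, hC0, hCD⟩ := h6
  refine ⟨C0 + 9, by linarith, ?_⟩
  intro G _ _ hG M r S W hS hM hmin n hn
  have hW : ∀ x : W, x + x = 0 := fun x => Subtype.ext (hG x)
  have hM0 : (0 : ℝ) < (M : ℝ) := by exact_mod_cast (show 0 < M by omega)
  obtain ⟨z, Q, hne, hV⟩ := (h1 G M (n + 1) S W hS).2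
  set K : Fin (n + 1) → Finset W := sl S W z with hK
  set V : ℝ := Vv M K Q with hVd
  obtain ⟨hp, hR, hsupp, hI0, hI1, hDf, hE⟩ := h3 W M (n + 1) K Q hM hne
  set p : W → ℝ := px K Q with hpd
  set R : (Fin (n + 1) → W) → ℝ := Ry K Q with hRd
  have hD0 : 0 ≤ V - Df p := hI0.trans hI1
  -- dropping
  obtain ⟨hdn, hdrop⟩ := h2 W M n K Q hM hne
  have hdrop2 : ∀ i : Fin (n + 1), fN M S W n ≤
      Vv M (fun j => K (i.succAbove j)) (fun j => Q (i.succAbove j)) := by
    intro i
    exact (h1 G M n S W hS).1 (fun j => z (i.succAbove j)) (fun j => Q (i.succAbove j)) (hdn i)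
  have hdrop3 : ((n : ℝ) + 1) * fN M S W n ≤ n * V + Df p := by
    have h := Finset.sum_le_sum fun (i : Fin (n + 1)) (_ : i ∈ univ) => hdrop2 i
    rw [Finset.sum_const, Finset.card_univ, Fintype.card_fin, nsmul_eq_mul] at h
    push_cast at h
    linarith
  have hkey : V - Df p ≤ ((n : ℝ) + 1) * (V - fN M S W n) := by
    nlinarith
  have hn1 : (0 : ℝ) < (n : ℝ) + 1 := by positivity
  -- the class
  obtain ⟨c, B, hB, hBR, hcl⟩ := h7 W hW (n + 1) R
    (fun y => C0 * KL (un (Tt K y)) p - (log (Fintype.card W) - log ((Tt K y).card : ℝ)))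
    (8 / M) (by omega) hR (by positivity)
  have hrhs : ∑ y, R y * (C0 * KL (un (Tt K y)) p -
      (log (Fintype.card W) - log ((Tt K y).card : ℝ))) =
      C0 * ∑ y, R y * KL (un (Tt K y)) p -
        ∑ y, R y * (log (Fintype.card W) - log ((Tt K y).card : ℝ)) := by
    rw [Finset.mul_sum, ← Finset.sum_sub_distrib]
    refine Finset.sum_congr rfl fun y _ => ?_
    ring
  have hlhs : ∑ t, B t * (C0 * KL (un (Tt K (fun i => c i + t))) p -
      (log (Fintype.card W) - log ((Tt K (fun i => c i + t)).card : ℝ))) =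
      C0 * ∑ t, B t * KL (un (Tt K (fun i => c i + t))) p -
        (log (Fintype.card W) - log ((Tt K c).card : ℝ)) := by
    have e1 : ∀ t ∈ univ, B t * (C0 * KL (un (Tt K (fun i => c i + t))) p -
        (log (Fintype.card W) - log ((Tt K (fun i => c i + t)).card : ℝ))) =
        C0 * (B t * KL (un (Tt K (fun i => c i + t))) p) -
          B t * (log (Fintype.card W) - log ((Tt K c).card : ℝ)) := by
      intro t _
      rw [Incr_card]
      ring
    rw [Finset.sum_congr rfl e1, Finset.sum_sub_distrib, ← Finset.mul_sum, ← Finset.sum_mul,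
      hB.sum, one_mul]
  rw [hrhs, hlhs] at hcl
  -- the inequality of the class
  have hcls := hCD W hW (n + 1) K c B p (1 / M) hB hp (by positivity)
    (fun t ht => hsupp _ (hBR t ht)) (by
      intro H t ht
      obtain ⟨hTne, hTp⟩ := hsupp _ (hBR t ht)
      obtain ⟨a, b, hab, hval⟩ := h4 W M (n + 1) K Q H (un (Tt K (fun i => c i + t))) hM hne
        (Incr_un_law hTne) (fun x hx => hTp x (Incr_un_mem hx))
      have h8 := (h5 G M (n + 1) S W H hS).2 z (fun i => a + b i)
        (fun i => slice (Q i) H (b i)) hab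
      have h9 := hmin (n + 1) (by omega) hn H
      have h10 : Vv M (fun i => slice (slice S W (z i)) H (a + b i))
          (fun i => slice (Q i) H (b i)) ≤
          V + KL (un (Tt K (fun i => c i + t))) p -
            Df (prq H (un (Tt K (fun i => c i + t)))) := hval
      have h11 : 1 / (M : ℝ) * cod H = cod H / M := by ring
      rw [h11]
      linarith)
  have hfin : Df p ≤ (C0 + 8) * (V - Df p) + 8 * log 2 / M := by
    have e1 : 8 / (M : ℝ) * (log (Fintype.card (Fin (n + 1) → W)) - ent R) ≤ 8 * (V - Df p) := by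
      have h := mul_le_mul_of_nonneg_left hE (show (0 : ℝ) ≤ 8 / M by positivity)
      have e : 8 / (M : ℝ) * (M * (V - Df p)) = 8 * (V - Df p) := by
        field_simp
      rw [e] at h
      exact h
    have e2 : C0 * ∑ y, R y * KL (un (Tt K y)) p ≤ C0 * (V - Df p) :=
      mul_le_mul_of_nonneg_left hI1 (by linarith)
    have e3 : 1 / (M : ℝ) * (8 * Df B + 8 * log 2) = 8 / M * Df B + 8 * log 2 / M := by
      ring
    rw [e3] at hcls
    linarith
  constructor
  · rw [hV]
    have h : 0 ≤ ((n : ℝ) + 1) * (V - fN M S W n) := hD0.trans hkey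
    have h' := nonneg_of_mul_nonneg_right h hn1
    linarith
  · rw [hV]
    have e1 : (C0 + 9) * (V - Df p) ≤ (C0 + 9) * (((n : ℝ) + 1) * (V - fN M S W n)) :=
      mul_le_mul_of_nonneg_left hkey (by linarith)
    have e2 : (C0 + 9) * ((n : ℝ) + 1) * (V - fN M S W n) =
      (C0 + 9) * (((n : ℝ) + 1) * (V - fN M S W n)) := by ring
    rw [e2]
    linarith

end Pool.Agent.BRK
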