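import Pool.Agent.BRK.Asym

/-!
MP_68cffc_co, many summands, part 2: the sum of two different sets `A₁`, `A₂` of deficiencies
`d ≤ l`: density at least `exp (-eps d)` on a coset of a subgroup of codimension at most
`C eps^(-C) l`.
-/

set_option autoImplicit false

namespace Pool.Agent.BRK

open Finset Real Pool.Agent.BR Pool.Agent.BRQ
open Pool.Agent.DEN68 (un)
open scoped Classical

theorem fTop2 (h : St_fN) {G : Type} [AddCommGroup G] [Fintype G] (M N : ℕ) (S A B : Finset G)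
    (hA : A.Nonempty) (hB : B.Nonempty) (hAS : ∀ a ∈ A, ∀ b ∈ B, a + b ∈ S) (hM : 1 ≤ M) :
    fN M S ⊤ N ≤ (log (Fintype.card G) - log A.card) +
      (N : ℝ) / M * (log (Fintype.card G) - log B.card) := by
  obtain ⟨a0, ha0⟩ := hA
  obtain ⟨b0, hb0⟩ := hB
  have hS : S.Nonempty := ⟨a0 + b0, hAS a0 ha0 b0 hb0⟩
  obtain ⟨A', hA'⟩ : ∃ A' : Finset (⊤ : AddSubgroup G), A' = slice A ⊤ 0 := ⟨_, rfl⟩
  obtain ⟨B', hB'⟩ : ∃ B' : Finset (⊤ : AddSubgroup G), B' = slice B ⊤ 0 := ⟨_, rfl⟩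
  have hmem : ∀ w : (⊤ : AddSubgroup G), w ∈ A' ↔ (w : G) ∈ A := by
    intro w
    rw [hA', fN_slice, zero_add]
  have hmemB : ∀ w : (⊤ : AddSubgroup G), w ∈ B' ↔ (w : G) ∈ B := by
    intro w
    rw [hB', fN_slice, zero_add]
  have hcard : A'.card = A.card := by
    refine Finset.card_bij (fun w _ => (w : G)) ?_ ?_ ?_
    · intro w hw
      exact (hmem w).1 hw
    · intro w _ w' _ hww
      exact Subtype.ext hww
    · intro x hx
      exact ⟨⟨x, AddSubgroup.mem_top x⟩, (hmem _).2 hx, rfl⟩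
  have hcardB : B'.card = B.card := by
    refine Finset.card_bij (fun w _ => (w : G)) ?_ ?_ ?_
    · intro w hw
      exact (hmemB w).1 hw
    · intro w _ w' _ hww
      exact Subtype.ext hww
    · intro x hx
      exact ⟨⟨x, AddSubgroup.mem_top x⟩, (hmemB _).2 hx, rfl⟩
  have hsub : A' ×ˢ Fintype.piFinset (fun _ : Fin N => B') ⊆
      Gam (sl S (⊤ : AddSubgroup G) (fun _ => 0)) (fun _ => B') := by
    intro q hq
    rw [mem_product, Fintype.mem_piFinset] at hq
    rw [fN_mem]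
    refine fun i => ⟨hq.2 i, ?_⟩
    unfold sl
    rw [fN_slice, zero_add, AddSubgroup.coe_add]
    exact hAS _ ((hmem _).1 hq.1) _ ((hmemB _).1 (hq.2 i))
  have hne : (Gam (sl S (⊤ : AddSubgroup G) (fun _ => 0)) (fun _ : Fin N => B')).Nonempty := by
    refine ⟨((⟨a0, AddSubgroup.mem_top a0⟩ : (⊤ : AddSubgroup G)),
      fun _ => (⟨b0, AddSubgroup.mem_top b0⟩ : (⊤ : AddSubgroup G))), hsub ?_⟩
    rw [mem_product, Fintype.mem_piFinset]
    exact ⟨(hmem _).2 ha0, fun _ => (hmemB _).2 hb0⟩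
  have h1 := (h G M N S ⊤ hS).1 (fun _ => 0) (fun _ => B') hne
  refine h1.trans ?_
  have hAp : (0 : ℝ) < A.card := by
    have : 0 < A.card := Finset.card_pos.2 ⟨a0, ha0⟩
    exact_mod_cast this
  have hBp : (0 : ℝ) < B.card := by
    have : 0 < B.card := Finset.card_pos.2 ⟨b0, hb0⟩
    exact_mod_cast this
  have hGam : (A.card : ℝ) * (B.card : ℝ) ^ N ≤
      ((Gam (sl S (⊤ : AddSubgroup G) (fun _ => 0)) (fun _ : Fin N => B')).card : ℝ) := by
    have h2 := card_le_card hsub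
    rw [card_product, Fintype.card_piFinset, prod_const, card_univ, Fintype.card_fin, hcard,
      hcardB] at h2
    exact_mod_cast h2
  have hlogG : log A.card + (N : ℝ) * log B.card ≤
      log ((Gam (sl S (⊤ : AddSubgroup G) (fun _ => 0)) (fun _ : Fin N => B')).card : ℝ) := by
    have h2 := log_le_log (mul_pos hAp (pow_pos hBp N)) hGam
    rw [Real.log_mul hAp.ne' (pow_pos hBp N).ne', Real.log_pow] at h2
    exact h2
  have hcT : Fintype.card (⊤ : AddSubgroup G) = Fintype.card G :=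
    Fintype.card_congr (AddSubgroup.topEquiv (G := G)).toEquiv
  have hM0 : (0 : ℝ) < M := by exact_mod_cast hM
  unfold Vv
  have e0 : ∑ i : Fin N, log (((fun _ : Fin N => B') i).card : ℝ) = N * log B.card := by
    simp only [hcardB]
    rw [sum_const, card_univ, Fintype.card_fin, nsmul_eq_mul]
  rw [hcT, e0]
  have e1 : log (Fintype.card G) * (1 + (N : ℝ) / M) + (1 - 1 / (M : ℝ)) * (N * log B.card) -
      (log A.card + (N : ℝ) * log B.card) = (log (Fintype.card G) - log A.card) +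
      (N : ℝ) / M * (log (Fintype.card G) - log B.card) := by
    field_simp
    ring
  linarith

/-- The set of the sums. -/
noncomputable def ss {G : Type} [AddCommGroup G] [Fintype G] (A B : Finset G) : Finset G :=
  univ.filter fun x : G => ∃ a ∈ A, ∃ b ∈ B, x = a + b

theorem mem_ss {G : Type} [AddCommGroup G] [Fintype G] (A B : Finset G) (x : G) :
    x ∈ ss A B ↔ ∃ a ∈ A, ∃ b ∈ B, x = a + b := by
  unfold ss
  rw [mem_filter]
  exact ⟨fun h => h.2, fun h => ⟨mem_univ _, h⟩⟩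

/-- The statement for two different sets. -/
def St_AGr : Prop := ∃ C : ℝ, 1 ≤ C ∧
  ∀ (G : Type) [AddCommGroup G] [Fintype G], (∀ x : G, x + x = 0) →
  ∀ (A B : Finset G) (d l eps : ℝ), A.Nonempty → B.Nonempty →
  log (Fintype.card G) - log A.card ≤ d → log (Fintype.card G) - log B.card ≤ l →
  log 2 ≤ l → 0 < d → d ≤ l → 0 < eps → eps ≤ 1 →
  ∃ (W : AddSubgroup G) (z : G), cod W ≤ C * (1 / eps) ^ C * l ∧
    exp (-(eps * d)) * (Nat.card W : ℝ) ≤
      ((BRQ.slice (ss A B) W z).card : ℝ)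

theorem agr : St_AGr := by
  have hDW : St_DW := thm_DW
  have hSt : St_Star := thm_Star thm_StarC
  have hTr : St_Trans := thm_Trans thm_fN
  have hCD : St_ClassD := thm_ClassD sdpi (thm_Core hDW) (thm_Inv hDW) thm_Cond hDW
  obtain ⟨C1, hC1, hinc⟩ := incr thm_fN thm_Drop thm_Joint hSt hTr hCD thm_DiagU
  have hp : (0 : ℝ) ≤ 2 ^ (4 * C1) := by positivity
  refine ⟨2 * (578 * 2 ^ (4 * C1) + 4 * C1), by linarith, ?_⟩
  intro G _ _ hG A B d l eps hA hB hcA hcB hl hd hdl he he1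
  have hlog2 : (0 : ℝ) < log 2 := Real.log_pos (by norm_num)
  have hl0 : 0 < l := lt_of_lt_of_le hlog2 hl
  obtain ⟨r, hr, hr16, hrb⟩ := DGr_const hC1 he he1 hl0.le
  set Sm : Finset G := ss A B with hS
  have hsum : ∀ a ∈ A, ∀ b ∈ B, a + b ∈ Sm := fun a ha b hb =>
    (mem_ss A B _).2 ⟨a, ha, b, hb, rfl⟩
  have hSne : Sm.Nonempty := by
    obtain ⟨a, ha⟩ := hA
    obtain ⟨b, hb⟩ := hB
    exact ⟨a + b, hsum a ha b hb⟩
  have hr0 : (0 : ℝ) < r := by exact_mod_cast hr
  have hr1 : (1 : ℝ) ≤ r := by exact_mod_cast hr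
  -- the weight
  have hx1 : 1 ≤ (r : ℝ) * (l / d) := by
    have h1 : 1 ≤ l / d := by rw [le_div_iff₀ hd]; linarith
    nlinarith
  have hM1 : (r : ℝ) * (l / d) ≤ (⌈(r : ℝ) * (l / d)⌉₊ : ℝ) := Nat.le_ceil _
  have hM2 : (⌈(r : ℝ) * (l / d)⌉₊ : ℝ) ≤ 2 * ((r : ℝ) * (l / d)) := by
    have := Nat.ceil_lt_add_one (a := (r : ℝ) * (l / d)) (by linarith)
    linarith
  obtain ⟨M, hMd⟩ : ∃ M : ℕ, M = ⌈(r : ℝ) * (l / d)⌉₊ := ⟨_, rfl⟩
  rw [← hMd] at hM1 hM2
  have hMR : (1 : ℝ) ≤ (M : ℝ) := by linarith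
  have hM : 1 ≤ M := by exact_mod_cast hMR
  have hM0 : (0 : ℝ) < M := by linarith
  obtain ⟨W, w1, w2, w3⟩ := minW thm_fN thm_Joint hSt hTr M r Sm hSne hM
  have hdB : 0 ≤ log (Fintype.card G) - log B.card := by
    have h2 : (B.card : ℝ) ≤ Fintype.card G := by exact_mod_cast card_le_univ B
    have := log_le_log (by exact_mod_cast hB.card_pos) h2
    linarith
  have htop : ∀ N, N ≤ r → fN M Sm ⊤ N ≤ 2 * d := by
    intro N hN
    have h1 := fTop2 thm_fN M N Sm A B hA hB hsum hM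
    have h2 : (N : ℝ) / M * (log (Fintype.card G) - log B.card) ≤ d := by
      have h3 : (N : ℝ) / M * (log (Fintype.card G) - log B.card) ≤ (N : ℝ) / M * l :=
        mul_le_mul_of_nonneg_left hcB (by positivity)
      have h4 : (N : ℝ) / M * l ≤ d := by
        rw [div_mul_eq_mul_div, div_le_iff₀ hM0]
        have h5 : (N : ℝ) ≤ r := by exact_mod_cast hN
        have h6 : (r : ℝ) * l ≤ d * M := by
          have h7 : (r : ℝ) * (l / d) * d ≤ M * d := mul_le_mul_of_nonneg_right hM1 hd.le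
          have h8 : (r : ℝ) * (l / d) * d = r * l := by field_simp
          linarith
        have h9 : (N : ℝ) * l ≤ r * l := mul_le_mul_of_nonneg_right h5 hl0.le
        linarith
      linarith
    linarith
  have hseq := hinc G hG M r Sm W hSne hM w1
  -- rescaled sequence
  have ht : 0 < log 2 / d := div_pos hlog2 hd
  have htM : log 2 / d * (8 * log 2 / M) ≤ 8 * log 2 / r := by
    have h1 : log 2 / d * r ≤ M := by
      have h2 : log 2 / d ≤ l / d := by gcongr
      have h3 : log 2 / d * r ≤ l / d * r := mul_le_mul_of_nonneg_right h2 hr0.le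
      linarith [mul_comm (l / d) (r : ℝ)]
    rw [← mul_div_assoc, div_le_div_iff₀ hM0 hr0]
    nlinarith
  have hone := thm_Grow C1 eps (log 2) r (fun n => log 2 / d * fN M Sm W n) hC1 he he1 le_rfl hr16
    (by
      intro n hn
      obtain ⟨s1, s2⟩ := hseq n hn
      refine ⟨mul_le_mul_of_nonneg_left s1 ht.le, ?_⟩
      have h1 := mul_le_mul_of_nonneg_left s2 ht.le
      have h2 : log 2 / d * (C1 * (n + 1) * (fN M Sm W (n + 1) - fN M Sm W n) + 8 * log 2 / M) =
          C1 * (n + 1) * (log 2 / d * fN M Sm W (n + 1) - log 2 / d * fN M Sm W n) +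
            log 2 / d * (8 * log 2 / M) := by ring
      rw [h2] at h1
      linarith)
    (by
      have h1 := (w2 r hr le_rfl).trans (htop r le_rfl)
      have h2 := mul_le_mul_of_nonneg_left h1 ht.le
      have h3 : log 2 / d * (2 * d) = 2 * log 2 := by field_simp
      linarith)
  have hone' : fN M Sm W 1 ≤ eps * d := by
    have h1 : log 2 / d * fN M Sm W 1 ≤ eps * log 2 := hone
    have h2 : log 2 / d * (eps * d) = eps * log 2 := by field_simp
    rw [← h2] at h1
    exact le_of_mul_le_mul_left h1 ht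
  obtain ⟨z, hz, hz2⟩ := thm_fOne thm_fN G M Sm W hSne hM
  refine ⟨W, z, ?_, ?_⟩
  · have e1 : ∑ N ∈ Icc 1 r, fN M Sm ⊤ N ≤ r * (2 * d) := by
      calc ∑ N ∈ Icc 1 r, fN M Sm ⊤ N ≤ ∑ _N ∈ Icc 1 r, 2 * d :=
            Finset.sum_le_sum fun N hN => htop N (Finset.mem_Icc.1 hN).2
        _ = r * (2 * d) := by
            rw [Finset.sum_const, Nat.card_Icc, nsmul_eq_mul]
            simp
    have e2 : cod W ≤ M * (r * (2 * d)) := by
      have e3 := w3.trans e1
      rw [div_le_iff₀ hM0] at e3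
      linarith
    have e4 : (M : ℝ) * (r * (2 * d)) ≤ 2 * ((r : ℝ) * (r * (2 * l))) := by
      have h1 : (M : ℝ) * (r * (2 * d)) ≤ 2 * ((r : ℝ) * (l / d)) * (r * (2 * d)) :=
        mul_le_mul_of_nonneg_right hM2 (by positivity)
      have h2 : 2 * ((r : ℝ) * (l / d)) * (r * (2 * d)) = 2 * ((r : ℝ) * (r * (2 * l))) := by
        field_simp
      linarith
    have h1e : 1 ≤ 1 / eps := by
      rw [le_div_iff₀ he]
      linarith
    have e5 : (1 / eps) ^ (578 * (2 : ℝ) ^ (4 * C1) + 4 * C1) ≤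
        (1 / eps) ^ (2 * (578 * (2 : ℝ) ^ (4 * C1) + 4 * C1)) :=
      Real.rpow_le_rpow_of_exponent_le h1e (by linarith)
    have e6 : 2 * ((578 * 2 ^ (4 * C1) + 4 * C1) *
        (1 / eps) ^ (578 * (2 : ℝ) ^ (4 * C1) + 4 * C1) * l) ≤
        2 * (578 * 2 ^ (4 * C1) + 4 * C1) *
        (1 / eps) ^ (2 * (578 * (2 : ℝ) ^ (4 * C1) + 4 * C1)) * l := by
      have h1 : 0 ≤ 578 * (2 : ℝ) ^ (4 * C1) + 4 * C1 := by linarith
      have h2 := mul_le_mul_of_nonneg_right (mul_le_mul_of_nonneg_left e5 h1) hl0.le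
      linarith
    linarith
  · have hc : (0 : ℝ) < ((slice Sm W z).card : ℝ) := by exact_mod_cast hz.card_pos
    have hW : (0 : ℝ) < (Nat.card W : ℝ) := by exact_mod_cast Nat.card_pos
    have e1 : log (Nat.card W) - log ((slice Sm W z).card : ℝ) ≤ eps * d := hz2.trans hone'
    have e2 : -(eps * d) + log (Nat.card W) ≤ log ((slice Sm W z).card : ℝ) := by linarith
    have e3 := Real.exp_le_exp.2 e2
    rwa [Real.exp_add, Real.exp_log hW, Real.exp_log hc] at e3

end Pool.Agent.BRK
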