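import Pool.Agent.BRK.Loglog

/-!
MP_68cffc_co, many summands, part 5: the statements for `F_2^n`.
-/

set_option autoImplicit false

namespace Pool.Agent.BRK

open Finset Real Pool.Agent.BR Pool.Agent.BRQ
open Pool.Agent.DEN68 (un)
open scoped Classical

/-- `m + 1` summands, twice: codimension `C m (2 l / log 2)^(C / m) l`. -/
theorem power : ∃ C : ℝ, 1 ≤ C ∧
    ∀ (G : Type) [AddCommGroup G] [Fintype G], (∀ x : G, x + x = 0) →
    ∀ (A : Finset G) (l : ℝ) (m : ℕ), A.Nonempty → log (Fintype.card G) - log A.card ≤ l →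
    log 2 ≤ l → 1 ≤ m →
    ∃ W : AddSubgroup G, cod W ≤ m * (C * (2 * l / log 2) ^ (C / m) * l) ∧
      ∀ w ∈ W, ∃ s ∈ sm A (m + 1), ∃ t ∈ sm A (m + 1), w = s + t := by
  obtain ⟨C, hC, hagr⟩ := agr
  refine ⟨C, hC, ?_⟩
  intro G _ _ h2 A l m hA hcA hl hm
  have hlog2 : (0 : ℝ) < log 2 := Real.log_pos (by norm_num)
  have hl0 : 0 < l := lt_of_lt_of_le hlog2 hl
  have hm0 : (0 : ℝ) < m := by exact_mod_cast hm
  obtain ⟨x, hx⟩ : ∃ x : ℝ, x = 2 * l / log 2 := ⟨_, rfl⟩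
  have hx1 : 1 ≤ x := by
    rw [hx, le_div_iff₀ hlog2]
    linarith
  have hx0 : 0 < x := by linarith
  obtain ⟨eps, heps⟩ : ∃ eps : ℝ, eps = (1 / x) ^ (1 / (m : ℝ)) := ⟨_, rfl⟩
  have he : 0 < eps := by rw [heps]; positivity
  have he1 : eps ≤ 1 := by
    rw [heps]
    exact Real.rpow_le_one (by positivity) (by rw [div_le_one hx0]; exact hx1) (by positivity)
  have hem : eps ^ m = 1 / x := by
    rw [heps, ← Real.rpow_natCast, ← Real.rpow_mul (by positivity), one_div_mul_cancel hm0.ne',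
      Real.rpow_one]
  have hec : (1 / eps) ^ C = x ^ (C / m) := by
    rw [heps, one_div, ← Real.inv_rpow (by positivity), one_div, inv_inv, ← Real.rpow_mul hx0.le]
    congr 1
    ring
  obtain ⟨W, z, h3, h4⟩ := iter hagr G h2 A l eps hA hcA hl he he1 m
  rw [hec, hx] at h3
  refine ⟨W, h3, half h2 W (sm A (m + 1)) z ?_⟩
  have hWp : (0 : ℝ) < (Nat.card W : ℝ) := by exact_mod_cast Nat.card_pos
  have h5 : eps ^ m * l = log 2 / 2 := by
    rw [hem, hx]
    field_simp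
  rw [h5] at h4
  have h6 : (1 : ℝ) / 2 < exp (-(log 2 / 2)) := by
    have h7 : exp (-log 2) < exp (-(log 2 / 2)) := Real.exp_lt_exp.2 (by linarith)
    rw [Real.exp_neg, Real.exp_log (by norm_num)] at h7
    linarith
  have h7 := mul_lt_mul_of_pos_right h6 hWp
  linarith

theorem cardG (n : ℕ) : (Fintype.card (Fin n → ZMod 2) : ℝ) = 2 ^ n := by
  rw [Fintype.card_fun, ZMod.card, Fintype.card_fin]
  push_cast
  ring

theorem codG (n : ℕ) (W : AddSubgroup (Fin n → ZMod 2)) :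
    cod W = (n - Module.finrank (ZMod 2) (AddSubgroup.toZModSubmodule 2 W)) * log 2 := by
  have hc : (Nat.card W : ℝ) = 2 ^ Module.finrank (ZMod 2) (AddSubgroup.toZModSubmodule 2 W) := by
    have h1 := Module.natCard_eq_pow_finrank (K := ZMod 2) (V := AddSubgroup.toZModSubmodule 2 W)
    rw [Nat.card_zmod] at h1
    have h2 : Nat.card W = Nat.card (AddSubgroup.toZModSubmodule 2 W) := rfl
    rw [h2, h1]
    push_cast
    ring
  unfold cod
  rw [hc, cardG, log_pow, log_pow]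
  ring

/-- an element of `sm A j` is a sum of `j` elements of `A` -/
theorem sm_fin {G : Type} [AddCommGroup G] [Fintype G] (A : Finset G) (j : ℕ) :
    ∀ x ∈ sm A j, ∃ a : Fin j → G, (∀ i, a i ∈ A) ∧ x = ∑ i, a i := by
  induction j with
  | zero =>
    intro x hx
    have h : x = 0 := mem_singleton.1 hx
    exact ⟨Fin.elim0, fun i => i.elim0, by rw [h]; simp⟩
  | succ j ih =>
    intro x hx
    obtain ⟨a, ha, b, hb, rfl⟩ := (sm_succ A j x).1 hx
    obtain ⟨f, hf, rfl⟩ := ih a ha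
    refine ⟨Fin.snoc f b, ?_, ?_⟩
    · intro i
      refine Fin.lastCases ?_ (fun i => ?_) i
      · rw [Fin.snoc_last]
        exact hb
      · rw [Fin.snoc_castSucc]
        exact hf i
    · rw [Fin.sum_univ_castSucc]
      simp

/-- `k = m + m` summands -/
theorem sum_fin {G : Type} [AddCommGroup G] [Fintype G] (A : Finset G) (m : ℕ) (W : AddSubgroup G)
    (h : ∀ w ∈ W, ∃ s ∈ sm A m, ∃ t ∈ sm A m, w = s + t) :
    ∀ w ∈ W, ∃ a : Fin (m + m) → G, (∀ i, a i ∈ A) ∧ w = ∑ i, a i := by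
  intro w hw
  obtain ⟨s, hs, t, ht, rfl⟩ := h w hw
  obtain ⟨f, hf, rfl⟩ := sm_fin A m s hs
  obtain ⟨g, hg, rfl⟩ := sm_fin A m t ht
  refine ⟨Fin.append f g, ?_, ?_⟩
  · intro i
    refine Fin.addCases (fun i => ?_) (fun i => ?_) i
    · rw [Fin.append_left]
      exact hf i
    · rw [Fin.append_right]
      exact hg i
  · rw [Fin.sum_univ_add]
    simp only [Fin.append_left, Fin.append_right]

/-- The two upper bounds in `F_2^n`. -/
theorem fin_many : ∃ C : ℝ, 1 ≤ C ∧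
    ∀ (n : ℕ) (A : Finset (Fin n → ZMod 2)) (al : ℝ) (k : ℕ), 0 < al → al ≤ 1 / 2 →
    al * 2 ^ n ≤ (A.card : ℝ) → Even k → 4 ≤ k →
    (∃ V : Submodule (ZMod 2) (Fin n → ZMod 2),
      (∀ v ∈ V, ∃ a : Fin k → (Fin n → ZMod 2), (∀ i, a i ∈ A) ∧ v = ∑ i, a i) ∧
      (n : ℝ) - Module.finrank (ZMod 2) V ≤ C * k * (logb 2 (1 / al)) ^ (1 + C / k)) ∧
    (C * (1 + log (logb 2 (1 / al))) ≤ k → ∃ V : Submodule (ZMod 2) (Fin n → ZMod 2),
      (∀ v ∈ V, ∃ a : Fin k → (Fin n → ZMod 2), (∀ i, a i ∈ A) ∧ v = ∑ i, a i) ∧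
      (n : ℝ) - Module.finrank (ZMod 2) V ≤ 4 * logb 2 (1 / al)) := by
  obtain ⟨C1, hC1, hp⟩ := power
  obtain ⟨C2, hC2, hq⟩ := loglog
  have hlog2 : (0 : ℝ) < log 2 := Real.log_pos (by norm_num)
  have h2C : 0 < (2 : ℝ) ^ C1 := by positivity
  refine ⟨4 * C1 * 2 ^ C1 + 2 * C2, by nlinarith [Real.one_le_rpow (show (1 : ℝ) ≤ 2 by norm_num) (by linarith : 0 ≤ C1)], ?_⟩
  intro n A al k hal hal2 hA hk hk4
  have h2n : (0 : ℝ) < 2 ^ n := by positivity
  have hA0 : (0 : ℝ) < A.card := lt_of_lt_of_le (by positivity) hA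
  have hAne : A.Nonempty := by
    rw [← Finset.card_pos]
    exact_mod_cast hA0
  have hG : ∀ x : Fin n → ZMod 2, x + x = 0 := fun x => by
    funext i
    exact CharTwo.add_self_eq_zero (x i)
  obtain ⟨L, hL⟩ : ∃ L : ℝ, L = logb 2 (1 / al) := ⟨_, rfl⟩
  rw [← hL]
  have hlL : log (1 / al) = L * log 2 := by
    rw [hL]
    unfold logb
    field_simp
  have hL1 : 1 ≤ L := by
    rw [hL, Real.le_logb_iff_rpow_le (by norm_num) (by positivity), Real.rpow_one,
      le_div_iff₀ hal]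
    linarith
  have hcA : log (Fintype.card (Fin n → ZMod 2)) - log A.card ≤ L * log 2 := by
    rw [cardG, ← log_div h2n.ne' hA0.ne', ← hlL]
    refine log_le_log (by positivity) ?_
    rw [div_le_div_iff₀ hA0 hal, one_mul]
    linarith
  have hl : log 2 ≤ L * log 2 := by nlinarith
  obtain ⟨m, hkm⟩ := hk
  have hm2 : 2 ≤ m := by omega
  have h1C : 1 ≤ (2 : ℝ) ^ C1 := Real.one_le_rpow (by norm_num) (by linarith)
  constructor
  · obtain ⟨W, h3, h4⟩ := hp (Fin n → ZMod 2) hG A (L * log 2) (m - 1) hAne hcA hl (by omega)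
    rw [show m - 1 + 1 = m by omega] at h4
    have h5 := sum_fin A m W h4
    subst hkm
    refine ⟨AddSubgroup.toZModSubmodule 2 W, h5, ?_⟩
    rw [codG] at h3
    have hmr : ((m - 1 : ℕ) : ℝ) = (m : ℝ) - 1 := by
      rw [Nat.cast_sub (by omega)]
      simp
    rw [hmr] at h3
    have hm2' : (2 : ℝ) ≤ m := by exact_mod_cast hm2
    have e1 : 2 * (L * log 2) / log 2 = 2 * L := by field_simp
    rw [e1] at h3
    have e2 : (2 * L) ^ (C1 / ((m : ℝ) - 1)) ≤
        2 ^ C1 * L ^ ((4 * C1 * 2 ^ C1 + 2 * C2) / ((m + m : ℕ) : ℝ)) := by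
      rw [Real.mul_rpow (by norm_num) (by linarith)]
      have f1 : C1 / ((m : ℝ) - 1) ≤ C1 := by
        rw [div_le_iff₀ (by linarith)]
        nlinarith
      have f2 : C1 / ((m : ℝ) - 1) ≤ (4 * C1 * 2 ^ C1 + 2 * C2) / ((m + m : ℕ) : ℝ) := by
        push_cast
        rw [div_le_div_iff₀ (by linarith) (by linarith)]
        have f3 : C1 ≤ C1 * 2 ^ C1 := by nlinarith
        have f4 : C1 * ((m : ℝ) + m) ≤ 4 * C1 * ((m : ℝ) - 1) := by nlinarith
        have f5 : 4 * C1 * ((m : ℝ) - 1) ≤ (4 * C1 * 2 ^ C1 + 2 * C2) * ((m : ℝ) - 1) :=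
          mul_le_mul_of_nonneg_right (by nlinarith) (by linarith)
        linarith
      exact mul_le_mul (Real.rpow_le_rpow_of_exponent_le (by norm_num) f1)
        (Real.rpow_le_rpow_of_exponent_le hL1 f2) (by positivity) h2C.le
    have hLp : 0 < L := by linarith
    rw [Real.rpow_add hLp, Real.rpow_one]
    obtain ⟨y, hy⟩ : ∃ y : ℝ, y = L ^ ((4 * C1 * 2 ^ C1 + 2 * C2) / ((m + m : ℕ) : ℝ)) := ⟨_, rfl⟩
    rw [← hy] at e2 ⊢
    have hy0 : 0 < y := by rw [hy]; positivity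
    have e3 : ((n : ℝ) - Module.finrank (ZMod 2) (AddSubgroup.toZModSubmodule 2 W)) * log 2 ≤
        ((4 * C1 * 2 ^ C1 + 2 * C2) * ((m + m : ℕ) : ℝ) * (L * y)) * log 2 := by
      refine h3.trans ?_
      push_cast
      have g1 : C1 * (2 * L) ^ (C1 / ((m : ℝ) - 1)) ≤ C1 * (2 ^ C1 * y) :=
        mul_le_mul_of_nonneg_left e2 (by linarith)
      have g2 : C1 * (2 * L) ^ (C1 / ((m : ℝ) - 1)) * (L * log 2) ≤
          C1 * (2 ^ C1 * y) * (L * log 2) := mul_le_mul_of_nonneg_right g1 (by positivity)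
      have g3 : ((m : ℝ) - 1) * (C1 * (2 * L) ^ (C1 / ((m : ℝ) - 1)) * (L * log 2)) ≤
          ((m : ℝ) - 1) * (C1 * (2 ^ C1 * y) * (L * log 2)) :=
        mul_le_mul_of_nonneg_left g2 (by linarith)
      refine g3.trans ?_
      have g4 : 0 ≤ C1 * (2 ^ C1 * y) * (L * log 2) := by positivity
      have g5 : ((m : ℝ) - 1) * (C1 * (2 ^ C1 * y) * (L * log 2)) ≤
          (m : ℝ) * (C1 * (2 ^ C1 * y) * (L * log 2)) := by nlinarith
      refine g5.trans ?_
      have g6 : 0 ≤ (m : ℝ) * (L * y) * log 2 := by positivity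
      have g7 : (m : ℝ) * (C1 * (2 ^ C1 * y) * (L * log 2)) =
          (C1 * 2 ^ C1) * ((m : ℝ) * (L * y) * log 2) := by ring
      have g8 : (4 * C1 * 2 ^ C1 + 2 * C2) * ((m : ℝ) + m) * (L * y) * log 2 =
          (2 * (4 * C1 * 2 ^ C1 + 2 * C2)) * ((m : ℝ) * (L * y) * log 2) := by ring
      rw [g7, g8]
      refine mul_le_mul_of_nonneg_right ?_ g6
      nlinarith
    exact le_of_mul_le_mul_right e3 hlog2
  · intro hkl
    have hlogL : 0 ≤ log L := Real.log_nonneg hL1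
    have e1 : log (L * log 2 / log 2) = log L := by
      congr 1
      field_simp
    obtain ⟨W, h3, h4⟩ := hq (Fin n → ZMod 2) hG A (L * log 2) m hAne hcA hl (by
      rw [e1]
      subst hkm
      push_cast at hkl
      have f1 : 0 ≤ 4 * C1 * 2 ^ C1 := by positivity
      nlinarith)
    have h5 := sum_fin A m W h4
    subst hkm
    refine ⟨AddSubgroup.toZModSubmodule 2 W, h5, ?_⟩
    rw [codG] at h3
    have h6 : 4 * (L * log 2) = (4 * L) * log 2 := by ring
    rw [h6] at h3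
    exact le_of_mul_le_mul_right h3 hlog2

end Pool.Agent.BRK
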