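import Pool.Agent.BRK.Pow2
import Pool.Agent.BRK.Fin

/-!
MP_68cffc_co, many summands, part 9: the statements for `F_2^n`.
-/

set_option autoImplicit false

namespace Pool.Agent.BRK

open Finset Real Pool.Agent.BR Pool.Agent.BRQ
open scoped Classical

/-- The two upper bounds in `F_2^n`. -/
theorem fin_many2 : ∃ C : ℝ, 1 ≤ C ∧
    ∀ (n : ℕ) (A : Finset (Fin n → ZMod 2)) (al : ℝ) (k : ℕ), 0 < al → al ≤ 1 / 2 →
    al * 2 ^ n ≤ (A.card : ℝ) → Even k → 4 ≤ k →
    (∃ V : Submodule (ZMod 2) (Fin n → ZMod 2),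
      (∀ v ∈ V, ∃ a : Fin k → (Fin n → ZMod 2), (∀ i, a i ∈ A) ∧ v = ∑ i, a i) ∧
      (n : ℝ) - Module.finrank (ZMod 2) V ≤
        C * k * (logb 2 (1 / al)) ^ (1 + C / (C + k - 4))) ∧
    (C * (1 + log (logb 2 (1 / al))) ≤ k → ∃ V : Submodule (ZMod 2) (Fin n → ZMod 2),
      (∀ v ∈ V, ∃ a : Fin k → (Fin n → ZMod 2), (∀ i, a i ∈ A) ∧ v = ∑ i, a i) ∧
      (n : ℝ) - Module.finrank (ZMod 2) V ≤ 4 * logb 2 (1 / al)) := by
  obtain ⟨C1, hC1, hp⟩ := power2
  obtain ⟨C2, hC2, hq⟩ := fin_many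
  have hlog2 : (0 : ℝ) < log 2 := Real.log_pos (by norm_num)
  refine ⟨2 * C1 + C2, by linarith, ?_⟩
  intro n A al k hal hal2 hA hk hk4
  have h2n : (0 : ℝ) < 2 ^ n := by positivity
  have hA0 : (0 : ℝ) < A.card := lt_of_lt_of_le (by positivity) hA
  have hAne : A.Nonempty := by
    rw [← Finset.card_pos]
    exact_mod_cast hA0
  have hG : ∀ x : Fin n → ZMod 2, x + x = 0 := fun x => by
    funext i
    exact CharTwo.add_self_eq_zero (x i)
  obtain ⟨hfin1, hfin2⟩ := hq n A al k hal hal2 hA hk hk4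
  obtain ⟨L, hL⟩ : ∃ L : ℝ, L = logb 2 (1 / al) := ⟨_, rfl⟩
  rw [← hL] at hfin2 ⊢
  have hlL : log (1 / al) = L * log 2 := by
    rw [hL]
    unfold logb
    field_simp
  have hL1 : 1 ≤ L := by
    rw [hL, Real.le_logb_iff_rpow_le (by norm_num) (by positivity), Real.rpow_one,
      le_div_iff₀ hal]
    linarith
  have hcA : log (Fintype.card (Fin n → ZMod 2)) - log A.card ≤ L * log 2 := by
    rw [cardG, ← log_div h2n.ne' hA0.ne', ← hlL]
    refine log_le_log (by positivity) ?_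
    rw [div_le_div_iff₀ hA0 hal, one_mul]
    linarith
  have hl : log 2 ≤ L * log 2 := by nlinarith
  constructor
  · obtain ⟨m, hkm⟩ := hk
    obtain ⟨r, rfl⟩ : ∃ r, m = r + 2 := ⟨m - 2, by omega⟩
    obtain ⟨W, h3, h4⟩ := hp (Fin n → ZMod 2) hG A (L * log 2) r hAne hcA hl
    have h5 := sum_fin A (r + 2) W h4
    subst hkm
    refine ⟨AddSubgroup.toZModSubmodule 2 W, h5, ?_⟩
    rw [codG, mul_div_assoc, div_self hlog2.ne', mul_one] at h3
    have hr0 : (0 : ℝ) ≤ r := Nat.cast_nonneg r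
    have hLp : 0 < L := by linarith
    have e1 : L ^ (C1 / (C1 + r)) ≤
        L ^ ((2 * C1 + C2) / (2 * C1 + C2 + ((r + 2 + (r + 2) : ℕ) : ℝ) - 4)) := by
      refine Real.rpow_le_rpow_of_exponent_le hL1 ?_
      push_cast
      rw [div_le_div_iff₀ (by linarith) (by linarith)]
      nlinarith [mul_nonneg (by linarith : 0 ≤ C2) hr0]
    rw [Real.rpow_add hLp, Real.rpow_one]
    obtain ⟨y, hy⟩ : ∃ y : ℝ, y =
      L ^ ((2 * C1 + C2) / (2 * C1 + C2 + ((r + 2 + (r + 2) : ℕ) : ℝ) - 4)) := ⟨_, rfl⟩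
    rw [← hy] at e1 ⊢
    have hy0 : 0 ≤ y := by rw [hy]; positivity
    have e3 : ((n : ℝ) - Module.finrank (ZMod 2) (AddSubgroup.toZModSubmodule 2 W)) * log 2 ≤
        ((2 * C1 + C2) * ((r + 2 + (r + 2) : ℕ) : ℝ) * (L * y)) * log 2 := by
      refine h3.trans ?_
      push_cast
      have g1 : C1 * L ^ (C1 / (C1 + r)) * (L * log 2) ≤ C1 * y * (L * log 2) :=
        mul_le_mul_of_nonneg_right (mul_le_mul_of_nonneg_left e1 (by linarith)) (by positivity)
      have g2 : ((r : ℝ) + 1) * (C1 * L ^ (C1 / (C1 + r)) * (L * log 2)) ≤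
          ((r : ℝ) + 1) * (C1 * y * (L * log 2)) := mul_le_mul_of_nonneg_left g1 (by linarith)
      refine g2.trans ?_
      have g3 : ((r : ℝ) + 1) * (C1 * y * (L * log 2)) =
          (C1 * (r + 1)) * (L * y * log 2) := by ring
      have g4 : (2 * C1 + C2) * ((r : ℝ) + 2 + (r + 2)) * (L * y) * log 2 =
          ((2 * C1 + C2) * ((r : ℝ) + 2 + (r + 2))) * (L * y * log 2) := by ring
      rw [g3, g4]
      refine mul_le_mul_of_nonneg_right ?_ (by positivity)
      exact mul_le_mul (by linarith) (by linarith) (by linarith) (by linarith)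
    exact le_of_mul_le_mul_right e3 hlog2
  · intro hkl
    refine hfin2 (le_trans ?_ hkl)
    have hlogL : 0 ≤ log L := Real.log_nonneg hL1
    exact mul_le_mul_of_nonneg_right (by linarith) (by linarith)

end Pool.Agent.BRK
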