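import Pool.Agent.BR.Grp

/-!
MP_68cffc_co, limits of two summands, part 1: cosets of subgroups of `G₀^m` meet `S^m` in few
points.
-/

set_option autoImplicit false

namespace Pool.Agent.BRK

open Finset Real Pool.Agent.BR
open scoped Classical

section

variable {G : Type} [AddCommGroup G] [Fintype G]

/-- The projection of `V` to the first coordinate. -/
def pU {m : ℕ} (V : AddSubgroup (Fin (m + 1) → G)) : AddSubgroup G :=
  V.map (Pi.evalAddMonoidHom (fun _ : Fin (m + 1) => G) 0)

/-- The embedding of the last coordinates. -/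
def cons0 (m : ℕ) : (Fin m → G) →+ (Fin (m + 1) → G) where
  toFun y := Fin.cons 0 y
  map_zero' := by
    funext i
    refine Fin.cases ?_ (fun i => ?_) i <;> simp
  map_add' y z := by
    funext i
    refine Fin.cases ?_ (fun i => ?_) i <;> simp

/-- The elements of `V` with first coordinate zero. -/
def kU {m : ℕ} (V : AddSubgroup (Fin (m + 1) → G)) : AddSubgroup (Fin m → G) :=
  V.comap (cons0 m)

omit [Fintype G] in
theorem mem_kU {m : ℕ} (V : AddSubgroup (Fin (m + 1) → G)) (y : Fin m → G) :
    y ∈ kU V ↔ (Fin.cons 0 y : Fin (m + 1) → G) ∈ V := Iff.rfl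

omit [Fintype G] in
theorem mem_pU {m : ℕ} (V : AddSubgroup (Fin (m + 1) → G)) (u : G) :
    u ∈ pU V ↔ ∃ w ∈ V, w 0 = u := Iff.rfl

omit [Fintype G] in
theorem card_split {m : ℕ} (V : AddSubgroup (Fin (m + 1) → G)) :
    Nat.card V = Nat.card (kU V) * Nat.card (pU V) := by
  set f : V →+ G := (Pi.evalAddMonoidHom (fun _ : Fin (m + 1) => G) 0).comp V.subtype with hf
  have h1 : Nat.card V = Nat.card f.ker * Nat.card f.range := by
    rw [← AddSubgroup.index_ker, AddSubgroup.card_mul_index]
  have h2 : Nat.card f.range = Nat.card (pU V) := by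
    have h3 : f.range = pU V := by
      ext u
      rw [mem_pU]
      constructor
      · rintro ⟨w, rfl⟩
        exact ⟨w.1, w.2, rfl⟩
      · rintro ⟨w, hw, rfl⟩
        exact ⟨⟨w, hw⟩, rfl⟩
    rw [h3]
  have h4 : Nat.card f.ker = Nat.card (kU V) := by
    refine Nat.card_congr ?_
    refine
      { toFun := fun x => ⟨Fin.tail x.1.1, ?_⟩
        invFun := fun y => ⟨⟨Fin.cons 0 y.1, y.2⟩, ?_⟩
        left_inv := ?_
        right_inv := ?_ }
    · rw [mem_kU]
      have h5 : x.1.1 0 = 0 := x.2
      have h6 : (Fin.cons 0 (Fin.tail x.1.1) : Fin (m + 1) → G) = x.1.1 := by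
        rw [← h5]
        exact Fin.cons_self_tail _
      rw [h6]
      exact x.1.2
    · show (Fin.cons 0 y.1 : Fin (m + 1) → G) 0 = 0
      rfl
    · intro x
      have h5 : x.1.1 0 = 0 := x.2
      refine Subtype.ext (Subtype.ext ?_)
      show (Fin.cons 0 (Fin.tail x.1.1) : Fin (m + 1) → G) = x.1.1
      rw [← h5]
      exact Fin.cons_self_tail _
    · intro y
      refine Subtype.ext ?_
      funext i
      rfl
  rw [h1, h2, h4]

end

theorem prod_bound {G : Type} [AddCommGroup G] [Fintype G] (h2 : ∀ x : G, x + x = 0)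
    (S : Finset G) (t ρ : ℝ) (ht : 0 < t) (hρ : 0 < ρ) (hρ1 : ρ ≤ 1)
    (hS : ∀ (U : AddSubgroup G) (c : G), cod U < t →
      ((univ.filter fun u : G => u ∈ S ∧ u + c ∈ U).card : ℝ) ≤ ρ * Nat.card U) (m : ℕ) :
    ∀ (V : AddSubgroup (Fin m → G)) (c : Fin m → G),
      ((univ.filter fun x : Fin m → G => (∀ i, x i ∈ S) ∧ x + c ∈ V).card : ℝ) ≤
        ρ ^ ((m : ℝ) - cod V / t) * Nat.card V := by
  induction m with
  | zero =>
    intro V c
    have h1 : Nat.card V = 1 := by
      rw [Nat.card_eq_one_iff_unique]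
      exact ⟨⟨fun a b => Subtype.ext (Subsingleton.elim _ _)⟩, ⟨0⟩⟩
    have h3 : cod V = 0 := by
      unfold cod
      rw [h1]
      simp
    rw [h1, h3]
    simp only [CharP.cast_eq_zero, zero_div, sub_zero, Real.rpow_zero, Nat.cast_one, mul_one]
    have h4 : (univ.filter fun x : Fin 0 → G => (∀ i, x i ∈ S) ∧ x + c ∈ V).card ≤ 1 := by
      refine (card_le_univ _).trans ?_
      simp
    exact_mod_cast h4
  | succ m ih =>
    intro V c
    obtain ⟨B, hB⟩ : ∃ B : ℝ, B = ρ ^ ((m : ℝ) - cod (kU V) / t) * Nat.card (kU V) := ⟨_, rfl⟩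
    have hB0 : 0 ≤ B := by rw [hB]; positivity
    obtain ⟨F, hF⟩ : ∃ F : Finset (Fin (m + 1) → G),
      F = univ.filter fun x : Fin (m + 1) → G => (∀ i, x i ∈ S) ∧ x + c ∈ V := ⟨_, rfl⟩
    obtain ⟨T, hT⟩ : ∃ T : Finset G, T = univ.filter fun u : G => u ∈ S ∧ u + c 0 ∈ pU V :=
      ⟨_, rfl⟩
    have hmF : ∀ x, x ∈ F ↔ (∀ i, x i ∈ S) ∧ x + c ∈ V := by
      intro x
      rw [hF, mem_filter]
      exact ⟨fun h => h.2, fun h => ⟨mem_univ _, h⟩⟩
    have hmT : ∀ u, u ∈ T ↔ u ∈ S ∧ u + c 0 ∈ pU V := by
      intro u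
      rw [hT, mem_filter]
      exact ⟨fun h => h.2, fun h => ⟨mem_univ _, h⟩⟩
    rw [← hF]
    have hfib : (F.card : ℝ) ≤ T.card * B := by
      have h1 : F.card = ∑ u ∈ T, (F.filter fun x => x 0 = u).card :=
        card_eq_sum_card_fiberwise (f := fun x : Fin (m + 1) → G => x 0) (t := T) (by
          intro x hx
          obtain ⟨h3, h4⟩ := (hmF x).1 (mem_coe.1 hx)
          exact mem_coe.2 ((hmT _).2 ⟨h3 0, (mem_pU V _).2 ⟨x + c, h4, rfl⟩⟩))
      rw [h1]
      push_cast
      have h3 : ∑ u ∈ T, ((F.filter fun x => x 0 = u).card : ℝ) ≤ ∑ _u ∈ T, B := by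
        refine sum_le_sum fun u hu => ?_
        obtain ⟨hu1, hu2⟩ := (hmT u).1 hu
        obtain ⟨w, hw, hw0⟩ := (mem_pU V _).1 hu2
        have h5 := ih (kU V) (Fin.tail c + Fin.tail w)
        rw [← hB] at h5
        refine le_trans ?_ h5
        have h6 : (F.filter fun x => x 0 = u).card ≤ (univ.filter fun x : Fin m → G =>
            (∀ i, x i ∈ S) ∧ x + (Fin.tail c + Fin.tail w) ∈ kU V).card := by
          refine card_le_card_of_injOn (fun x => Fin.tail x) ?_ ?_
          · intro x hx
            obtain ⟨hx1, hx2⟩ := mem_filter.1 (mem_coe.1 hx)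
            obtain ⟨hx3, hx4⟩ := (hmF x).1 hx1
            refine mem_coe.2 (mem_filter.2 ⟨mem_univ _, fun i => hx3 _, ?_⟩)
            rw [mem_kU]
            have h7 : (Fin.cons 0 (Fin.tail x + (Fin.tail c + Fin.tail w)) :
                Fin (m + 1) → G) = x + c + w := by
              funext i
              refine Fin.cases ?_ (fun i => ?_) i
              · rw [Fin.cons_zero, Pi.add_apply, Pi.add_apply, hw0, hx2]
                exact (h2 _).symm
              · rw [Fin.cons_succ]
                show x i.succ + (c i.succ + w i.succ) = x i.succ + c i.succ + w i.succ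
                rw [add_assoc]
            rw [h7]
            exact V.add_mem hx4 hw
          · intro x hx y hy hxy
            have hx2 := (mem_filter.1 (mem_coe.1 hx)).2
            have hy2 := (mem_filter.1 (mem_coe.1 hy)).2
            have hxy' : Fin.tail x = Fin.tail y := hxy
            rw [← Fin.cons_self_tail x, ← Fin.cons_self_tail y, hx2, hy2, hxy']
        exact_mod_cast h6
      rwa [sum_const, nsmul_eq_mul] at h3
    have hTU : (T.card : ℝ) ≤ ρ ^ (1 - cod (pU V) / t) * Nat.card (pU V) := by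
      rcases lt_or_ge (cod (pU V)) t with hlt | hge
      · have h1 := hS (pU V) (c 0) hlt
        rw [← hT] at h1
        refine h1.trans (mul_le_mul_of_nonneg_right ?_ (Nat.cast_nonneg _))
        have hc0 : 0 ≤ cod (pU V) := by
          unfold cod
          have h3 : (Nat.card (pU V) : ℝ) ≤ Fintype.card G := by
            rw [← Nat.card_eq_fintype_card]
            exact_mod_cast Nat.card_le_card_of_injective (pU V).subtype (pU V).subtype_injective
          have h4 : (0 : ℝ) < Nat.card (pU V) := by exact_mod_cast Nat.card_pos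
          have := log_le_log h4 h3
          linarith
        have h5 : ρ ^ (1 : ℝ) ≤ ρ ^ (1 - cod (pU V) / t) :=
          Real.rpow_le_rpow_of_exponent_ge hρ hρ1 (by
            have : 0 ≤ cod (pU V) / t := by positivity
            linarith)
        rwa [Real.rpow_one] at h5
      · have h1 : T.card ≤ Nat.card (pU V) := by
          rw [← Fintype.card_coe, ← Nat.card_eq_fintype_card]
          refine Nat.card_le_card_of_injective
            (fun u : T => (⟨u.1 + c 0, ((hmT _).1 u.2).2⟩ : pU V)) ?_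
          intro u v huv
          exact Subtype.ext (add_right_cancel (congrArg Subtype.val huv))
        have h3 : 1 ≤ ρ ^ (1 - cod (pU V) / t) := by
          refine Real.one_le_rpow_of_pos_of_le_one_of_nonpos hρ hρ1 ?_
          have : 1 ≤ cod (pU V) / t := by rwa [le_div_iff₀ ht, one_mul]
          linarith
        have h4 : (T.card : ℝ) ≤ Nat.card (pU V) := by exact_mod_cast h1
        have h5 : (0 : ℝ) ≤ Nat.card (pU V) := Nat.cast_nonneg _
        nlinarith
    have hcard := card_split V
    have hcod : cod V = cod (pU V) + cod (kU V) := by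
      unfold cod
      have h3 : (0 : ℝ) < Nat.card (pU V) := by exact_mod_cast Nat.card_pos
      have h4 : (0 : ℝ) < Nat.card (kU V) := by exact_mod_cast Nat.card_pos
      have h5 : (0 : ℝ) < Fintype.card G := BR.card_pos
      rw [hcard, Fintype.card_fun, Fintype.card_fun, Fintype.card_fin, Fintype.card_fin]
      push_cast
      rw [log_mul h4.ne' h3.ne', log_pow, log_pow]
      push_cast
      ring
    rw [hcard, hcod]
    push_cast
    have h7 : ρ ^ ((m : ℝ) + 1 - (cod (pU V) + cod (kU V)) / t) =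
        ρ ^ (1 - cod (pU V) / t) * ρ ^ ((m : ℝ) - cod (kU V) / t) := by
      rw [← Real.rpow_add hρ]
      congr 1
      ring
    rw [h7]
    have h8 : (T.card : ℝ) * B ≤ ρ ^ (1 - cod (pU V) / t) * Nat.card (pU V) * B :=
      mul_le_mul_of_nonneg_right hTU hB0
    refine hfib.trans (h8.trans (le_of_eq ?_))
    rw [hB]
    ring

/-- `prod_bound` without instances. -/
theorem prod_bound' {G : Type} [AddCommGroup G] [Finite G] (h2 : ∀ x : G, x + x = 0)
    (S : Set G) (t ρ : ℝ) (ht : 0 < t) (hρ : 0 < ρ) (hρ1 : ρ ≤ 1)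
    (hS : ∀ (U : AddSubgroup G) (c : G), log (Nat.card G) - log (Nat.card U) < t →
      (Nat.card {u : G // u ∈ S ∧ u + c ∈ U} : ℝ) ≤ ρ * Nat.card U) (m : ℕ)
    (V : AddSubgroup (Fin m → G)) (c : Fin m → G) :
      (Nat.card {x : Fin m → G // (∀ i, x i ∈ S) ∧ x + c ∈ V} : ℝ) ≤
        ρ ^ ((m : ℝ) - (m * log (Nat.card G) - log (Nat.card V)) / t) * Nat.card V := by
  have : Fintype G := Fintype.ofFinite G
  have h := prod_bound h2 (univ.filter fun x : G => x ∈ S) t ρ ht hρ hρ1 (by
    intro U c hU
    have h1 := hS U c (by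
      unfold cod at hU
      rwa [Nat.card_eq_fintype_card (α := G)])
    refine le_trans (le_of_eq ?_) h1
    rw [Nat.card_eq_fintype_card, Fintype.card_subtype]
    congr 1
    congr 1
    ext x
    simp) m V c
  have hcod : cod V = m * log (Nat.card G) - log (Nat.card V) := by
    unfold cod
    rw [Fintype.card_fun, Fintype.card_fin, Nat.card_eq_fintype_card (α := G)]
    push_cast
    rw [log_pow]
  rw [hcod] at h
  refine le_trans (le_of_eq ?_) h
  rw [Nat.card_eq_fintype_card, Fintype.card_subtype]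
  congr 1
  congr 1
  ext x
  simp

end Pool.Agent.BRK
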