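import Pool.Agent.BRK.Limit

/-!
MP_68cffc_co, limits of two summands, part 2: a Hamming ball `Q` of radius `N/2 - h` in `F_2^N`,
`N = 16 h^2`, has density at least `1/4`, and `Q + Q` contains no coset of a subspace of
codimension less than `2 h`.
-/

set_option autoImplicit false

namespace Pool.Agent.BRK

open Finset Real Pool.Agent.BR
open scoped Classical

/-- The central binomial coefficient. -/
theorem central (m : ℕ) : m.centralBinom ^ 2 * (2 * m + 1) ≤ 16 ^ m := by
  induction m with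
  | zero => simp
  | succ m ih =>
    have h1 := Nat.succ_mul_centralBinom_succ m
    have h3 : ((m + 1) * (m + 1).centralBinom) ^ 2 * (2 * (m + 1) + 1) =
        (2 * (2 * m + 1) * m.centralBinom) ^ 2 * (2 * (m + 1) + 1) := by rw [h1]
    have h4 : (2 * (2 * m + 1) * m.centralBinom) ^ 2 * (2 * (m + 1) + 1) =
        4 * ((2 * m + 1) * (2 * m + 3)) * (m.centralBinom ^ 2 * (2 * m + 1)) := by ring
    have h5 : 4 * ((2 * m + 1) * (2 * m + 3)) ≤ 16 * (m + 1) ^ 2 := by nlinarith
    have h6 : 4 * ((2 * m + 1) * (2 * m + 3)) * (m.centralBinom ^ 2 * (2 * m + 1)) ≤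
        16 * (m + 1) ^ 2 * 16 ^ m := Nat.mul_le_mul h5 ih
    have h7 : (m + 1) ^ 2 * ((m + 1).centralBinom ^ 2 * (2 * (m + 1) + 1)) ≤
        (m + 1) ^ 2 * 16 ^ (m + 1) := by
      calc (m + 1) ^ 2 * ((m + 1).centralBinom ^ 2 * (2 * (m + 1) + 1)) =
          ((m + 1) * (m + 1).centralBinom) ^ 2 * (2 * (m + 1) + 1) := by ring
        _ = 4 * ((2 * m + 1) * (2 * m + 3)) * (m.centralBinom ^ 2 * (2 * m + 1)) := by rw [h3, h4]
        _ ≤ 16 * (m + 1) ^ 2 * 16 ^ m := h6
        _ = (m + 1) ^ 2 * 16 ^ (m + 1) := by ring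
    exact Nat.le_of_mul_le_mul_left h7 (by positivity)

/-- The number of nonzero coordinates. -/
noncomputable def wt {N : ℕ} (x : Fin N → ZMod 2) : ℕ := (univ.filter fun i => x i ≠ 0).card

/-- The Hamming ball of radius `r`. -/
noncomputable def ball (N r : ℕ) : Finset (Fin N → ZMod 2) := univ.filter fun x => wt x ≤ r

theorem mem_ball {N r : ℕ} (x : Fin N → ZMod 2) : x ∈ ball N r ↔ wt x ≤ r := by
  unfold ball
  rw [mem_filter]
  exact ⟨fun h => h.2, fun h => ⟨mem_univ _, h⟩⟩

theorem zmod2 (a : ZMod 2) (h : a ≠ 0) : a = 1 := by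
  revert a
  decide

theorem wt_add {N : ℕ} (x y : Fin N → ZMod 2) : wt (x + y) ≤ wt x + wt y := by
  unfold wt
  refine (card_le_card ?_).trans (card_union_le _ _)
  intro i hi
  have h1 := (mem_filter.1 hi).2
  rw [mem_union, mem_filter, mem_filter]
  by_contra hcon
  push Not at hcon
  have h3 := hcon.1 (mem_univ _)
  have h4 := hcon.2 (mem_univ _)
  apply h1
  rw [Pi.add_apply, h3, h4, add_zero]

theorem wt_flip {N : ℕ} (x : Fin N → ZMod 2) : wt (x + 1) = N - wt x := by
  have h1 : (univ.filter fun i => (x + 1) i ≠ 0) = (univ.filter fun i => x i ≠ 0)ᶜ := by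
    ext i
    rw [mem_compl, mem_filter, mem_filter]
    have h3 : ∀ a : ZMod 2, a + 1 ≠ 0 ↔ ¬ a ≠ 0 := by decide
    have h4 := h3 (x i)
    simp only [mem_univ, true_and]
    exact h4
  unfold wt
  rw [h1, card_compl, Fintype.card_fin]

theorem wt_le {N : ℕ} (x : Fin N → ZMod 2) : wt x ≤ N := by
  unfold wt
  refine (card_le_univ _).trans ?_
  rw [Fintype.card_fin]

theorem card_level (N j : ℕ) :
    (univ.filter fun x : Fin N → ZMod 2 => wt x = j).card ≤ N.choose j := by
  have h1 : (powersetCard j (univ : Finset (Fin N))).card = N.choose j := by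
    rw [card_powersetCard, card_univ, Fintype.card_fin]
  rw [← h1]
  refine card_le_card_of_injOn (fun x => univ.filter fun i => x i ≠ 0) ?_ ?_
  · intro x hx
    exact mem_coe.2 (mem_powersetCard.2 ⟨subset_univ _, (mem_filter.1 (mem_coe.1 hx)).2⟩)
  · intro x _ y _ hxy
    have hxy' : (univ.filter fun i => x i ≠ 0) = (univ.filter fun i => y i ≠ 0) := hxy
    funext i
    have h3 : i ∈ (univ.filter fun i => x i ≠ 0) ↔ i ∈ (univ.filter fun i => y i ≠ 0) := by
      rw [hxy']
    rw [mem_filter, mem_filter] at h3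
    simp only [mem_univ, true_and] at h3
    by_cases h4 : x i = 0
    · by_cases h5 : y i = 0
      · rw [h4, h5]
      · exact absurd h4 (h3.2 h5)
    · rw [zmod2 _ h4, zmod2 _ (h3.1 h4)]

/-- The ball has density at least `1/4`. -/
theorem ball_card (h : ℕ) (hh : 1 ≤ h) :
    2 ^ (16 * h ^ 2) ≤ 4 * (ball (16 * h ^ 2) (8 * h ^ 2 - h)).card := by
  obtain ⟨m, hm⟩ : ∃ m : ℕ, m = 8 * h ^ 2 := ⟨_, rfl⟩
  have hN : 16 * h ^ 2 = 2 * m := by omega
  have hhm : h ≤ m := by nlinarith
  rw [hN, ← hm]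
  set Lo := ball (2 * m) (m - h) with hLo
  set Mid := (univ.filter fun x : Fin (2 * m) → ZMod 2 => m - h < wt x ∧ wt x < m + h) with hMid
  set Hi := (univ.filter fun x : Fin (2 * m) → ZMod 2 => m + h ≤ wt x) with hHi
  have htot : 2 ^ (2 * m) ≤ Lo.card + Mid.card + Hi.card := by
    have h1 : (univ : Finset (Fin (2 * m) → ZMod 2)) ⊆ Lo ∪ Mid ∪ Hi := by
      intro x _
      rw [mem_union, mem_union, hLo, mem_ball, hMid, hHi, mem_filter, mem_filter]
      simp only [mem_univ, true_and]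
      omega
    have h3 := card_le_card h1
    rw [card_univ, Fintype.card_fun, ZMod.card, Fintype.card_fin] at h3
    refine h3.trans ((card_union_le _ _).trans ?_)
    have := card_union_le Lo Mid
    omega
  have hHL : Hi.card ≤ Lo.card := by
    refine card_le_card_of_injOn (fun x => x + 1) ?_ ?_
    · intro x hx
      have h1 := (mem_filter.1 (mem_coe.1 hx)).2
      refine mem_coe.2 ((mem_ball _).2 ?_)
      rw [wt_flip]
      omega
    · intro x _ y _ hxy
      exact add_right_cancel hxy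
  have hMc : Mid.card ≤ (2 * h - 1) * m.centralBinom := by
    have h1 : Mid ⊆ (Ioo (m - h) (m + h)).biUnion fun j =>
        univ.filter fun x : Fin (2 * m) → ZMod 2 => wt x = j := by
      intro x hx
      have h3 := (mem_filter.1 hx).2
      exact mem_biUnion.2 ⟨wt x, mem_Ioo.2 h3, mem_filter.2 ⟨mem_univ _, rfl⟩⟩
    have h3 := card_biUnion_le_card_mul (Ioo (m - h) (m + h)) (fun j =>
        univ.filter fun x : Fin (2 * m) → ZMod 2 => wt x = j) m.centralBinom
        (fun j _ => (card_level (2 * m) j).trans (Nat.choose_le_centralBinom j m))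
    rw [Nat.card_Ioo] at h3
    refine (card_le_card h1).trans (h3.trans (Nat.mul_le_mul_right _ ?_))
    omega
  have hB : 2 * ((2 * h - 1) * m.centralBinom) ≤ 2 ^ (2 * m) := by
    have h1 := central m
    have h3 : (2 * ((2 * h - 1) * m.centralBinom)) ^ 2 ≤ (2 ^ (2 * m)) ^ 2 := by
      have h4 : (2 ^ (2 * m)) ^ 2 = 16 ^ m := by
        rw [← pow_mul, show 2 * m * 2 = 4 * m by ring, pow_mul]
        norm_num
      rw [h4]
      have h5 : (2 * (2 * h - 1)) ^ 2 ≤ 2 * m + 1 := by
        obtain ⟨k, rfl⟩ : ∃ k, h = k + 1 := ⟨h - 1, by omega⟩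
        rw [hm, show 2 * (k + 1) - 1 = 2 * k + 1 by omega]
        nlinarith
      calc (2 * ((2 * h - 1) * m.centralBinom)) ^ 2 =
          m.centralBinom ^ 2 * (2 * (2 * h - 1)) ^ 2 := by ring
        _ ≤ m.centralBinom ^ 2 * (2 * m + 1) := Nat.mul_le_mul_left _ h5
        _ ≤ 16 ^ m := h1
    exact (Nat.pow_le_pow_iff_left (by norm_num)).1 h3
  omega

/-- Every coset of a subspace of dimension `d` has a point of weight at least `d`. -/
theorem exists_wt {N : ℕ} (V : Submodule (ZMod 2) (Fin N → ZMod 2)) (c : Fin N → ZMod 2) :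
    ∃ v ∈ V, Module.finrank (ZMod 2) V ≤ wt (v + c) := by
  obtain ⟨v, hv⟩ := Finite.exists_max fun v : V => wt ((v : Fin N → ZMod 2) + c)
  refine ⟨v, v.2, ?_⟩
  by_contra hcon
  push Not at hcon
  set s : Finset (Fin N) := univ.filter fun i => ((v : Fin N → ZMod 2) + c) i ≠ 0 with hs
  let f : V →ₗ[ZMod 2] (s → ZMod 2) :=
    (LinearMap.funLeft (ZMod 2) (ZMod 2) (fun i : s => (i : Fin N))).comp V.subtype
  have h1 : Module.finrank (ZMod 2) (s → ZMod 2) < Module.finrank (ZMod 2) V := by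
    rw [Module.finrank_fintype_fun_eq_card, Fintype.card_coe]
    exact hcon
  obtain ⟨u, hu, hu0⟩ := (Submodule.ne_bot_iff _).1 (LinearMap.ker_ne_bot_of_finrank_lt h1 (f := f))
  have h3 : ∀ i ∈ s, (u : Fin N → ZMod 2) i = 0 := by
    intro i hi
    exact congrFun (LinearMap.mem_ker.1 hu) ⟨i, hi⟩
  have h4 : ∃ i, (u : Fin N → ZMod 2) i ≠ 0 := by
    by_contra h5
    push Not at h5
    exact hu0 (Subtype.ext (funext h5))
  obtain ⟨i, hi⟩ := h4
  have his : i ∉ s := fun h => hi (h3 i h)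
  have hvi : ((v : Fin N → ZMod 2) + c) i = 0 := by
    by_contra h5
    exact his (mem_filter.2 ⟨mem_univ _, h5⟩)
  have h5 := hv (v + u)
  have h6 : insert i s ⊆ univ.filter fun j => (((v + u : V) : Fin N → ZMod 2) + c) j ≠ 0 := by
    intro j hj
    refine mem_filter.2 ⟨mem_univ _, ?_⟩
    have h7 : (((v + u : V) : Fin N → ZMod 2) + c) j =
        ((v : Fin N → ZMod 2) + c) j + (u : Fin N → ZMod 2) j := by
      rw [Submodule.coe_add, Pi.add_apply, Pi.add_apply, Pi.add_apply]
      ring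
    rw [h7]
    rcases mem_insert.1 hj with rfl | hj
    · rw [hvi, zero_add]
      exact hi
    · rw [h3 j hj, add_zero]
      exact (mem_filter.1 hj).2
  have h7 := card_le_card h6
  rw [card_insert_of_notMem his] at h7
  have h8 : s.card = wt ((v : Fin N → ZMod 2) + c) := rfl
  have h9 : (univ.filter fun j => (((v + u : V) : Fin N → ZMod 2) + c) j ≠ 0).card =
      wt (((v + u : V) : Fin N → ZMod 2) + c) := rfl
  omega

end Pool.Agent.BRK
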