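import Pool.Agent.BRK.Limit2
import Pool.Agent.BRK.Fin

/-!
MP_68cffc_co, limits of two summands, part 3: powers of the ball.
-/

set_option autoImplicit false

namespace Pool.Agent.BRK

open Finset Real Pool.Agent.BR
open scoped Classical

/-- `ball + ball`. -/
noncomputable def bb (N r : ℕ) : Finset (Fin N → ZMod 2) :=
  univ.filter fun x => ∃ a ∈ ball N r, ∃ b ∈ ball N r, x = a + b

theorem mem_bb {N r : ℕ} (x : Fin N → ZMod 2) :
    x ∈ bb N r ↔ ∃ a ∈ ball N r, ∃ b ∈ ball N r, x = a + b := by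
  unfold bb
  rw [mem_filter]
  exact ⟨fun h => h.2, fun h => ⟨mem_univ _, h⟩⟩

theorem addself {N : ℕ} (x : Fin N → ZMod 2) : x + x = 0 := by
  funext i
  exact CharTwo.add_self_eq_zero (x i)

theorem block (h : ℕ) (hh : 1 ≤ h) (U : AddSubgroup (Fin (16 * h ^ 2) → ZMod 2))
    (c : Fin (16 * h ^ 2) → ZMod 2)
    (hU : log (Nat.card (Fin (16 * h ^ 2) → ZMod 2)) - log (Nat.card U) < 2 * h * log 2) :
    (Nat.card {u : Fin (16 * h ^ 2) → ZMod 2 //
      u ∈ bb (16 * h ^ 2) (8 * h ^ 2 - h) ∧ u + c ∈ U} : ℝ) ≤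
      (1 - 1 / 2 ^ (16 * h ^ 2)) * Nat.card U := by
  have hlog2 : (0 : ℝ) < log 2 := Real.log_pos (by norm_num)
  have hh2 : h ≤ 8 * h ^ 2 := by nlinarith
  obtain ⟨v, hv, hwt⟩ := exists_wt (AddSubgroup.toZModSubmodule 2 U) c
  have hdim : 16 * h ^ 2 - 2 * h <
      Module.finrank (ZMod 2) (AddSubgroup.toZModSubmodule 2 U) := by
    have h0 : log (Nat.card (Fin (16 * h ^ 2) → ZMod 2)) - log (Nat.card U) = cod U := by
      unfold cod
      rw [Nat.card_eq_fintype_card (α := Fin (16 * h ^ 2) → ZMod 2)]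
    rw [h0, codG] at hU
    have h1 := lt_of_mul_lt_mul_right hU hlog2.le
    have h3 : ((16 * h ^ 2 : ℕ) : ℝ) <
        (Module.finrank (ZMod 2) (AddSubgroup.toZModSubmodule 2 U) + 2 * h : ℕ) := by
      push_cast at h1 ⊢
      linarith
    have h4 : 16 * h ^ 2 < Module.finrank (ZMod 2) (AddSubgroup.toZModSubmodule 2 U) + 2 * h := by
      exact_mod_cast h3
    omega
  have hnot : v + c ∉ bb (16 * h ^ 2) (8 * h ^ 2 - h) := by
    intro hcon
    obtain ⟨a, ha, b, hb, hab⟩ := (mem_bb _).1 hcon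
    have h1 := wt_add a b
    rw [← hab] at h1
    have h3 := (mem_ball a).1 ha
    have h4 := (mem_ball b).1 hb
    omega
  have h1 : Nat.card {u : Fin (16 * h ^ 2) → ZMod 2 //
      u ∈ bb (16 * h ^ 2) (8 * h ^ 2 - h) ∧ u + c ∈ U} < Nat.card U := by
    have h3 : Function.Injective (fun u : {u : Fin (16 * h ^ 2) → ZMod 2 //
        u ∈ bb (16 * h ^ 2) (8 * h ^ 2 - h) ∧ u + c ∈ U} => (⟨u.1 + c, u.2.2⟩ : U)) := by
      intro u w huw
      exact Subtype.ext (add_right_cancel (congrArg Subtype.val huw))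
    have h4 : ¬ Function.Surjective (fun u : {u : Fin (16 * h ^ 2) → ZMod 2 //
        u ∈ bb (16 * h ^ 2) (8 * h ^ 2 - h) ∧ u + c ∈ U} => (⟨u.1 + c, u.2.2⟩ : U)) := by
      intro hsur
      obtain ⟨u, hu⟩ := hsur ⟨v, hv⟩
      have h5 : u.1 + c = v := congrArg Subtype.val hu
      have h6 : u.1 = v + c := by
        rw [← h5, add_assoc, addself, add_zero]
      exact hnot (h6 ▸ u.2.1)
    rw [Nat.card_eq_fintype_card, Nat.card_eq_fintype_card]
    exact Fintype.card_lt_of_injective_not_surjective _ h3 h4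
  have h3 : (Nat.card {u : Fin (16 * h ^ 2) → ZMod 2 //
      u ∈ bb (16 * h ^ 2) (8 * h ^ 2 - h) ∧ u + c ∈ U} : ℝ) + 1 ≤ Nat.card U := by
    exact_mod_cast h1
  have h4 : (Nat.card U : ℝ) ≤ 2 ^ (16 * h ^ 2) := by
    rw [← cardG, ← Nat.card_eq_fintype_card]
    exact_mod_cast Nat.card_le_card_of_injective U.subtype U.subtype_injective
  have h5 : (0 : ℝ) < 2 ^ (16 * h ^ 2) := by positivity
  have h6 : 1 / 2 ^ (16 * h ^ 2) * (Nat.card U : ℝ) ≤ 1 := by
    rw [one_div, inv_mul_le_iff₀ h5, mul_one]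
    exact h4
  linarith

/-- The blocks of a vector. -/
noncomputable def blk (m N : ℕ) : (Fin (m * N) → ZMod 2) ≃ₗ[ZMod 2] (Fin m → Fin N → ZMod 2) :=
  (LinearEquiv.funCongrLeft (ZMod 2) (ZMod 2) finProdFinEquiv).trans
    (LinearEquiv.curry (ZMod 2) (ZMod 2) (Fin m) (Fin N))

/-- The power of the ball. -/
noncomputable def pw (m N r : ℕ) : Finset (Fin (m * N) → ZMod 2) :=
  univ.filter fun x => ∀ i, blk m N x i ∈ ball N r

theorem mem_pw {m N r : ℕ} (x : Fin (m * N) → ZMod 2) :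
    x ∈ pw m N r ↔ ∀ i, blk m N x i ∈ ball N r := by
  unfold pw
  rw [mem_filter]
  exact ⟨fun h => h.2, fun h => ⟨mem_univ _, h⟩⟩

theorem card_pw (m N r : ℕ) : (pw m N r).card = (ball N r).card ^ m := by
  have h1 : (Fintype.piFinset fun _ : Fin m => ball N r).card = (ball N r).card ^ m := by
    rw [Fintype.card_piFinset, prod_const, card_univ, Fintype.card_fin]
  rw [← h1]
  refine card_nbij' (fun x => blk m N x) (fun y => (blk m N).symm y) ?_ ?_ ?_ ?_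
  · intro x hx
    exact mem_coe.2 (Fintype.mem_piFinset.2 ((mem_pw x).1 (mem_coe.1 hx)))
  · intro y hy
    refine mem_coe.2 ((mem_pw _).2 ?_)
    rw [LinearEquiv.apply_symm_apply]
    exact Fintype.mem_piFinset.1 (mem_coe.1 hy)
  · intro x _
    exact LinearEquiv.symm_apply_apply _ _
  · intro y _
    exact LinearEquiv.apply_symm_apply _ _

/-- The sumset of the power of the ball on cosets. -/
theorem pw_sum' (h m N r : ℕ) (hh : 1 ≤ h) (hN1 : 1 ≤ N)
    (hblock : ∀ (U : AddSubgroup (Fin N → ZMod 2)) (c : Fin N → ZMod 2),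
      log (Nat.card (Fin N → ZMod 2)) - log (Nat.card U) < 2 * h * log 2 →
      (Nat.card {u : Fin N → ZMod 2 // u ∈ bb N r ∧ u + c ∈ U} : ℝ) ≤
      (1 - 1 / 2 ^ N) * Nat.card U)
    (V : Submodule (ZMod 2) (Fin (m * N) → ZMod 2)) (c : Fin (m * N) → ZMod 2)
    (hV : ((m * N : ℕ) : ℝ) - Module.finrank (ZMod 2) V ≤ h * m) :
    (Nat.card {v : Fin (m * N) → ZMod 2 // v ∈ V ∧
      ∃ a ∈ pw m N r, ∃ b ∈ pw m N r, c + v = a + b} : ℝ) ≤
        exp (-((m : ℝ) / (2 * 2 ^ N))) * Nat.card V := by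
  have hlog2 : (0 : ℝ) < log 2 := Real.log_pos (by norm_num)
  have hh0 : (0 : ℝ) < h := by exact_mod_cast hh
  obtain ⟨e, he⟩ : ∃ e : (Fin (m * N) → ZMod 2) ≃ₗ[ZMod 2] (Fin m → Fin N → ZMod 2),
    e = blk m N := ⟨_, rfl⟩
  have hpwe : ∀ x, x ∈ pw m N r → ∀ i, e x i ∈ ball N r := by
    intro x hx
    rw [he]
    exact (mem_pw x).1 hx
  have hp : (0 : ℝ) < 2 ^ N := by positivity
  have hρ : (0 : ℝ) < 1 - 1 / 2 ^ N := by
    have h1 : (2 : ℝ) ≤ 2 ^ N := by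
      calc (2 : ℝ) = 2 ^ 1 := by norm_num
        _ ≤ 2 ^ N := pow_le_pow_right₀ (by norm_num) hN1
    have h3 : (1 : ℝ) / 2 ^ N ≤ 1 / 2 := by gcongr
    linarith
  have hρ1 : (1 : ℝ) - 1 / 2 ^ N ≤ 1 := by
    have : (0 : ℝ) ≤ 1 / 2 ^ N := by positivity
    linarith
  have ht : (0 : ℝ) < 2 * h * log 2 := by positivity
  obtain ⟨V', hV'⟩ : ∃ V' : AddSubgroup (Fin m → Fin N → ZMod 2), ∀ y, y ∈ V' ↔ e.symm y ∈ V := by
    refine ⟨V.toAddSubgroup.comap e.symm.toLinearMap.toAddMonoidHom, fun y => Iff.rfl⟩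
  have hmem : ∀ v, v ∈ V → e v ∈ V' := fun v hv => by
    rw [hV', e.symm_apply_apply]
    exact hv
  have hcardV : Nat.card V' = Nat.card V := by
    refine (Nat.card_congr ?_).symm
    refine
      { toFun := fun x => ⟨e x.1, hmem _ x.2⟩
        invFun := fun y => ⟨e.symm y.1, ?_⟩
        left_inv := fun x => Subtype.ext (e.symm_apply_apply _)
        right_inv := fun y => Subtype.ext (e.apply_symm_apply _) }
    exact (hV' y.1).1 y.2
  obtain ⟨cd, hcd⟩ : ∃ cd : ℝ, cd = m * log (Nat.card (Fin N → ZMod 2)) - log (Nat.card V') :=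
    ⟨_, rfl⟩
  have hcod : cd = (((m * N : ℕ) : ℝ) - Module.finrank (ZMod 2) V) * log 2 := by
    have h1 := Module.natCard_eq_pow_finrank (K := ZMod 2) (V := V)
    rw [Nat.card_zmod] at h1
    rw [hcd, hcardV, h1, Nat.card_fun, Nat.card_zmod, Nat.card_fin]
    push_cast
    rw [log_pow, log_pow]
    ring
  have hmain := prod_bound' (addself (N := N)) {u | u ∈ bb N r} (2 * h * log 2) (1 - 1 / 2 ^ N)
    ht hρ hρ1 hblock m V' (e c)
  rw [← hcd] at hmain
  have h1 : Nat.card {v : Fin (m * N) → ZMod 2 // v ∈ V ∧ ∃ a ∈ pw m N r, ∃ b ∈ pw m N r,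
      c + v = a + b} ≤ Nat.card {x : Fin m → Fin N → ZMod 2 //
        (∀ i, x i ∈ {u | u ∈ bb N r}) ∧ x + e c ∈ V'} := by
    refine Nat.card_le_card_of_injective (fun v => ⟨e (c + v.1), ?_⟩) ?_
    · refine ⟨?_, ?_⟩
      · intro i
        obtain ⟨-, a, ha, b, hb, hab⟩ := v.2
        rw [hab]
        refine (mem_bb _).2 ⟨e a i, hpwe a ha i, e b i, hpwe b hb i, ?_⟩
        rw [map_add]
        rfl
      · have h3 : e (c + v.1) + e c = e v.1 := by
          rw [map_add]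
          have h4 : e c + e c = 0 := by
            funext i
            exact addself _
          calc e c + e v.1 + e c = e v.1 + (e c + e c) := by abel
            _ = e v.1 := by rw [h4, add_zero]
        rw [h3]
        exact hmem _ v.2.1
    · intro v w hvw
      have h3 : e (c + v.1) = e (c + w.1) := congrArg Subtype.val hvw
      exact Subtype.ext (add_left_cancel (e.injective h3))
  have h3 : (1 - 1 / 2 ^ N : ℝ) ^ ((m : ℝ) - cd / (2 * h * log 2)) ≤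
      (1 - 1 / 2 ^ N : ℝ) ^ ((m : ℝ) / 2) := by
    refine Real.rpow_le_rpow_of_exponent_ge hρ hρ1 ?_
    have h4 : cd / (2 * h * log 2) ≤ m / 2 := by
      rw [div_le_div_iff₀ ht (by norm_num), hcod]
      have h5 : (((m * N : ℕ) : ℝ) - Module.finrank (ZMod 2) V) * log 2 ≤ (h * m) * log 2 :=
        mul_le_mul_of_nonneg_right hV hlog2.le
      nlinarith
    linarith
  have h4 : (1 - 1 / 2 ^ N : ℝ) ^ ((m : ℝ) / 2) ≤ exp (-((m : ℝ) / (2 * 2 ^ N))) := by
    have h5 : (1 - 1 / 2 ^ N : ℝ) ≤ exp (-(1 / 2 ^ N)) := by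
      have := Real.add_one_le_exp (-(1 / 2 ^ N : ℝ))
      linarith
    have h6 := Real.rpow_le_rpow hρ.le h5 (show (0 : ℝ) ≤ (m : ℝ) / 2 by positivity)
    rw [← Real.exp_mul] at h6
    refine h6.trans (le_of_eq ?_)
    congr 1
    field_simp
  have h5 : (0 : ℝ) ≤ Nat.card V := Nat.cast_nonneg _
  rw [hcardV] at hmain
  calc (Nat.card {v : Fin (m * N) → ZMod 2 // v ∈ V ∧ ∃ a ∈ pw m N r, ∃ b ∈ pw m N r,
      c + v = a + b} : ℝ) ≤ (Nat.card {x : Fin m → Fin N → ZMod 2 //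
        (∀ i, x i ∈ {u | u ∈ bb N r}) ∧ x + e c ∈ V'} : ℝ) := by exact_mod_cast h1
    _ ≤ (1 - 1 / 2 ^ N : ℝ) ^ ((m : ℝ) - cd / (2 * h * log 2)) * Nat.card V := hmain
    _ ≤ exp (-((m : ℝ) / (2 * 2 ^ N))) * Nat.card V :=
      mul_le_mul_of_nonneg_right (h3.trans h4) h5

theorem pw_sum (h m : ℕ) (hh : 1 ≤ h) (V : Submodule (ZMod 2) (Fin (m * (16 * h ^ 2)) → ZMod 2))
    (c : Fin (m * (16 * h ^ 2)) → ZMod 2)
    (hV : ((m * (16 * h ^ 2) : ℕ) : ℝ) - Module.finrank (ZMod 2) V ≤ h * m) :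
    (Nat.card {v : Fin (m * (16 * h ^ 2)) → ZMod 2 // v ∈ V ∧
      ∃ a ∈ pw m (16 * h ^ 2) (8 * h ^ 2 - h), ∃ b ∈ pw m (16 * h ^ 2) (8 * h ^ 2 - h),
        c + v = a + b} : ℝ) ≤ exp (-((m : ℝ) / (2 * 2 ^ (16 * h ^ 2)))) * Nat.card V :=
  pw_sum' h m (16 * h ^ 2) (8 * h ^ 2 - h) hh (by nlinarith) (block h hh) V c hV

/-- the density of the power of the ball -/
theorem pw_card (h m : ℕ) (hh : 1 ≤ h) :
    2 ^ (m * (16 * h ^ 2)) ≤ 4 ^ m * (pw m (16 * h ^ 2) (8 * h ^ 2 - h)).card := by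
  rw [card_pw, ← mul_pow, mul_comm m, pow_mul]
  exact Nat.pow_le_pow_left (ball_card h hh) m

end Pool.Agent.BRK
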