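import Pool.Agent.BRK.Limit3

/-!
MP_68cffc_co, limits of two summands, part 4: the asymptotic statement.
-/

set_option autoImplicit false

namespace Pool.Agent.BRK

open Finset Real Pool.Agent.BR
open scoped Classical

/-- In codimension `c L sqrt (log L)`, `L = log_2 (1/α)`, the sum of two sets may have density at
most `exp (-L^(1-κ))` on all cosets. -/
theorem fin_limit (kap : ℝ) (hk : 0 < kap) : ∃ c al0 : ℝ, 0 < c ∧ 0 < al0 ∧
    ∀ al : ℝ, 0 < al → al ≤ al0 → ∃ (n : ℕ) (A : Finset (Fin n → ZMod 2)),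
      al * 2 ^ n ≤ (A.card : ℝ) ∧
      ∀ (V : Submodule (ZMod 2) (Fin n → ZMod 2)) (x : Fin n → ZMod 2),
        (n : ℝ) - Module.finrank (ZMod 2) V ≤
          c * logb 2 (1 / al) * sqrt (log (logb 2 (1 / al))) →
        (Nat.card {v : Fin n → ZMod 2 // v ∈ V ∧ ∃ a ∈ A, ∃ b ∈ A, x + v = a + b} : ℝ) ≤
          exp (-(logb 2 (1 / al)) ^ (1 - kap)) * Nat.card V := by
  obtain ⟨L0, hL0⟩ : ∃ L0 : ℝ, L0 = max (max 4 (exp (32 / kap))) (8 ^ (2 / kap)) := ⟨_, rfl⟩
  have hL04 : 4 ≤ L0 := by rw [hL0]; exact (le_max_left _ _).trans (le_max_left _ _)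
  have hL0e : exp (32 / kap) ≤ L0 := by rw [hL0]; exact (le_max_right _ _).trans (le_max_left _ _)
  have hL08 : (8 : ℝ) ^ (2 / kap) ≤ L0 := by rw [hL0]; exact le_max_right _ _
  refine ⟨sqrt (kap / 32) / 8, 2 ^ (-L0), by positivity, by positivity, ?_⟩
  intro al hal hal0
  obtain ⟨L, hL⟩ : ∃ L : ℝ, L = logb 2 (1 / al) := ⟨_, rfl⟩
  rw [← hL]
  have hLal : (2 : ℝ) ^ L = 1 / al := by
    rw [hL, Real.rpow_logb (by norm_num) (by norm_num) (by positivity)]
  have hLL : L0 ≤ L := by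
    rw [hL, Real.le_logb_iff_rpow_le (by norm_num) (by positivity)]
    rw [Real.rpow_neg (by norm_num)] at hal0
    rw [le_div_iff₀ hal]
    have h1 : (0 : ℝ) < 2 ^ L0 := by positivity
    have h3 := mul_le_mul_of_nonneg_left hal0 h1.le
    rwa [mul_inv_cancel₀ h1.ne'] at h3
  have hL4 : 4 ≤ L := by linarith
  have hL0' : 0 < L := by linarith
  have hlogL : 32 / kap ≤ log L := by
    rw [Real.le_log_iff_exp_le hL0']
    linarith
  obtain ⟨y, hy⟩ : ∃ y : ℝ, y = sqrt (kap / 32 * log L) := ⟨_, rfl⟩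
  have hy1 : 1 ≤ y := by
    rw [hy]
    refine Real.one_le_sqrt.2 ?_
    have h1 : kap / 32 * (32 / kap) ≤ kap / 32 * log L :=
      mul_le_mul_of_nonneg_left hlogL (by positivity)
    have h3 : kap / 32 * (32 / kap) = 1 := by field_simp
    linarith
  have hy2 : y ^ 2 = kap / 32 * log L := by
    rw [hy, Real.sq_sqrt]
    have : 0 < 32 / kap := by positivity
    have h3 : 0 < log L := by linarith
    positivity
  obtain ⟨h, hh⟩ : ∃ h : ℕ, h = ⌊y⌋₊ := ⟨_, rfl⟩
  have hh1 : 1 ≤ h := by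
    rw [hh]
    exact (Nat.one_le_floor_iff y).2 hy1
  have hhy : (h : ℝ) ≤ y := by
    rw [hh]
    exact Nat.floor_le (by linarith)
  have hhy2 : y / 2 ≤ h := by
    have h1 := Nat.lt_floor_add_one y
    rw [← hh] at h1
    have h3 : (1 : ℝ) ≤ h := by exact_mod_cast hh1
    linarith
  obtain ⟨m, hm⟩ : ∃ m : ℕ, m = ⌊L / 2⌋₊ := ⟨_, rfl⟩
  have hmL : (m : ℝ) ≤ L / 2 := by
    rw [hm]
    exact Nat.floor_le (by linarith)
  have hmL2 : L / 4 ≤ m := by
    have h1 := Nat.lt_floor_add_one (L / 2)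
    rw [← hm] at h1
    linarith
  refine ⟨m * (16 * h ^ 2), pw m (16 * h ^ 2) (8 * h ^ 2 - h), ?_, ?_⟩
  · have h1 := pw_card h m hh1
    have h3 : (2 : ℝ) ^ (m * (16 * h ^ 2)) ≤
        4 ^ m * ((pw m (16 * h ^ 2) (8 * h ^ 2 - h)).card : ℝ) := by exact_mod_cast h1
    have h4 : (4 : ℝ) ^ m ≤ 1 / al := by
      rw [← hLal]
      have h5 : (4 : ℝ) ^ m = 2 ^ ((2 : ℝ) * m) := by
        rw [Real.rpow_mul (by norm_num), Real.rpow_natCast]
        norm_num
      rw [h5]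
      exact Real.rpow_le_rpow_of_exponent_le (by norm_num) (by linarith)
    have h5 : al * 4 ^ m ≤ 1 := by
      rw [le_div_iff₀ hal] at h4
      linarith
    have h6 : al * 2 ^ (m * (16 * h ^ 2)) ≤
        al * (4 ^ m * ((pw m (16 * h ^ 2) (8 * h ^ 2 - h)).card : ℝ)) :=
      mul_le_mul_of_nonneg_left h3 hal.le
    have h7 : al * (4 ^ m * ((pw m (16 * h ^ 2) (8 * h ^ 2 - h)).card : ℝ)) ≤
        1 * ((pw m (16 * h ^ 2) (8 * h ^ 2 - h)).card : ℝ) := by
      rw [← mul_assoc]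
      exact mul_le_mul_of_nonneg_right h5 (Nat.cast_nonneg _)
    linarith
  · intro V x hV
    have hV' : ((m * (16 * h ^ 2) : ℕ) : ℝ) - Module.finrank (ZMod 2) V ≤ h * m := by
      refine hV.trans ?_
      have h1 : sqrt (kap / 32) * sqrt (log L) = y := by
        rw [hy, Real.sqrt_mul (by positivity)]
      have h3 : sqrt (kap / 32) / 8 * L * sqrt (log L) = (y / 2) * (L / 4) := by
        rw [← h1]
        ring
      rw [h3]
      exact mul_le_mul hhy2 hmL2 (by linarith) (Nat.cast_nonneg _)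
    refine (pw_sum h m hh1 V x hV').trans ?_
    refine mul_le_mul_of_nonneg_right (Real.exp_le_exp.2 (neg_le_neg ?_)) (Nat.cast_nonneg _)
    have h1 : (2 : ℝ) ^ (16 * h ^ 2) ≤ L ^ (kap / 2) := by
      have h3 : (2 : ℝ) ^ (16 * h ^ 2) = exp ((16 * h ^ 2 : ℕ) * log 2) := by
        rw [← Real.log_pow, Real.exp_log (by positivity)]
      rw [h3, Real.rpow_def_of_pos hL0']
      refine Real.exp_le_exp.2 ?_
      push_cast
      have h4 : (h : ℝ) ^ 2 ≤ y ^ 2 := pow_le_pow_left₀ (Nat.cast_nonneg _) hhy 2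
      have h5 : log 2 ≤ 1 := by
        have := Real.log_two_lt_d9
        linarith
      have h6 : (0 : ℝ) < log 2 := Real.log_pos (by norm_num)
      have h7 : (16 : ℝ) * h ^ 2 * log 2 ≤ 16 * y ^ 2 * 1 :=
        mul_le_mul (by linarith) h5 h6.le (by positivity)
      rw [hy2] at h7
      linarith
    have h8 : (8 : ℝ) ≤ L ^ (kap / 2) := by
      have h3 := Real.rpow_le_rpow (by positivity) (hL08.trans hLL) (show 0 ≤ kap / 2 by positivity)
      rw [← Real.rpow_mul (by norm_num)] at h3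
      have h4 : 2 / kap * (kap / 2) = 1 := by field_simp
      rwa [h4, Real.rpow_one] at h3
    have h9 : L ^ (1 - kap) * L ^ (kap / 2) * L ^ (kap / 2) = L := by
      rw [← Real.rpow_add hL0', ← Real.rpow_add hL0']
      have h4 : 1 - kap + kap / 2 + kap / 2 = 1 := by ring
      rw [h4, Real.rpow_one]
    have h10 : 0 < L ^ (1 - kap) := by positivity
    have h11 : 0 < L ^ (kap / 2) := by positivity
    have h12 : (0 : ℝ) < 2 ^ (16 * h ^ 2) := by positivity
    rw [le_div_iff₀ (by positivity)]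
    calc L ^ (1 - kap) * (2 * 2 ^ (16 * h ^ 2)) ≤ L ^ (1 - kap) * (2 * L ^ (kap / 2)) := by
          gcongr
      _ = L ^ (1 - kap) * L ^ (kap / 2) * 8 / 4 := by ring
      _ ≤ L ^ (1 - kap) * L ^ (kap / 2) * L ^ (kap / 2) / 4 := by gcongr
      _ = L / 4 := by rw [h9]
      _ ≤ m := hmL2

end Pool.Agent.BRK
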