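import Pool.Agent.BRK.Many
import Pool.Agent.DEN68.DNG

/-!
MP_68cffc_co, many summands, part 4: `O(log log (1/α))` summands, linear codimension.
-/

set_option autoImplicit false

namespace Pool.Agent.BRK

open Finset Real Pool.Agent.BR Pool.Agent.BRQ
open Pool.Agent.DEN68 (un)
open scoped Classical

/-- The core of a law, with the deficiency of its piece. -/
theorem core2 (hDW : St_DW) {G : Type} [AddCommGroup G] [Fintype G] (B : G → ℝ) (hB : IsLaw B) :
    ∃ (W : AddSubgroup G) (b : G), 0 < ∑ w : W, B (b + w) ∧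
    Spread (fw W B b) ∧ Df (fw W B b) + cod W / 4 ≤ Df B := by
  let s : Set (AddSubgroup G × G) := {q | 0 < ∑ w : q.1, B (q.2 + w)}
  let f : AddSubgroup G × G → ℝ := fun q => Df (fw q.1 B q.2) + cod q.1 / 4
  have hsum : ∑ w : (⊤ : AddSubgroup G), B (0 + w) = 1 := by
    rw [← hB.sum]
    refine Fintype.sum_equiv AddSubgroup.topEquiv.toEquiv _ _ ?_
    intro w
    rw [zero_add]
    rfl
  have htop : ((⊤ : AddSubgroup G), (0 : G)) ∈ s := by
    show 0 < ∑ w : (⊤ : AddSubgroup G), B (0 + w)
    rw [hsum]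
    exact one_pos
  obtain ⟨⟨W, b⟩, hWb, hmin⟩ := Set.exists_min_image s f (Set.toFinite s) ⟨_, htop⟩
  have hWb' : 0 < ∑ w : W, B (b + w) := hWb
  have hlaw := core_fw_law W hB b hWb'
  have hcardW : (Nat.card W : ℝ) = Fintype.card W := by
    rw [Nat.card_eq_fintype_card]
  refine ⟨W, b, hWb', ?_, ?_⟩
  · -- all quotients are spread
    intro U
    have hch := (hDW W U U (fw W B b) hlaw).2.1
    have hpt : ∀ x : W, fw W B b x * (Df (fw W B b) - cod U / 4) ≤
        fw W B b x * Df (fw U (fw W B b) x) := by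
      intro x
      rcases eq_or_ne (fw W B b x) 0 with h0 | h0
      · rw [h0, zero_mul, zero_mul]
      refine mul_le_mul_of_nonneg_left ?_ (hlaw.nn x)
      have hpos : 0 < ∑ w : (U.map W.subtype : AddSubgroup G), B ((b + x : G) + w) := by
        have h1 : 0 < B (b + x) := by
          refine lt_of_le_of_ne (hB.nn _) fun h' => h0 ?_
          unfold fw
          rw [← h', zero_div]
        refine h1.trans_le ?_
        have h3 := single_le_sum (s := univ)
          (f := fun w : (U.map W.subtype : AddSubgroup G) => B ((b + x : G) + w))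
          (fun i _ => hB.nn _) (mem_univ (0 : (U.map W.subtype : AddSubgroup G)))
        simp only [AddSubgroup.coe_zero, add_zero] at h3
        exact h3
      have h4 : f (W, b) ≤ f ((U.map W.subtype : AddSubgroup G), (b + x : G)) := hmin _ hpos
      have h5 : Df (fw U (fw W B b) x) = Df (fw (U.map W.subtype) B (b + x)) :=
        core_Df_equiv (U.equivMapOfInjective W.subtype W.subtype_injective).toEquiv _ _
          (core_fw_fw W U B b x hWb')
      have h6 : (Nat.card (U.map W.subtype : AddSubgroup G) : ℝ) = Nat.card U := by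
        rw [Nat.card_congr (U.equivMapOfInjective W.subtype W.subtype_injective).toEquiv.symm]
      have h7 : cod (U.map W.subtype : AddSubgroup G) = cod W + cod U := by
        unfold cod
        rw [h6, hcardW]
        ring
      have h8 : Df (fw W B b) + cod W / 4 ≤
          Df (fw (U.map W.subtype) B (b + x)) + cod (U.map W.subtype : AddSubgroup G) / 4 := h4
      rw [h5]
      rw [h7] at h8
      linarith
    have hsum2 : Df (fw W B b) - cod U / 4 ≤ DW U (fw W B b) := by
      have h9 := sum_le_sum fun x (_ : x ∈ (univ : Finset W)) => hpt x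
      rw [← sum_mul, hlaw.sum, one_mul] at h9
      exact h9
    rw [hch] at hsum2
    unfold Df at hsum2
    unfold cod at hsum2 ⊢
    linarith
  · have h1 : f (W, b) ≤ f (⊤, 0) := hmin _ htop
    have h3 : Df (fw (⊤ : AddSubgroup G) B 0) = Df B := by
      refine core_Df_equiv AddSubgroup.topEquiv.toEquiv _ _ ?_
      intro w
      unfold fw
      rw [hsum, div_one, zero_add]
      rfl
    have h4 : cod (⊤ : AddSubgroup G) = 0 := by
      unfold cod
      rw [AddSubgroup.card_top, Nat.card_eq_fintype_card, sub_self]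
    have h5 : Df (fw W B b) + cod W / 4 ≤ Df (fw (⊤ : AddSubgroup G) B 0) +
        cod (⊤ : AddSubgroup G) / 4 := h1
    rw [h3, h4] at h5
    linarith


section

variable {G : Type} [AddCommGroup G] [Fintype G]

/-- The `(j + 1)`-fold convolution of `B`. -/
noncomputable def cv (B : G → ℝ) : ℕ → G → ℝ
  | 0 => B
  | j + 1 => conv (cv B j) B

theorem cv_law {B : G → ℝ} (hB : IsLaw B) (j : ℕ) : IsLaw (cv B j) := by
  induction j with
  | zero => exact hB
  | succ j ih => exact conv_law ih hB

theorem cv_Df {c : ℝ} (hc1 : c ≤ 1) {B : G → ℝ} (hB : IsLaw B)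
    (h : ∀ p : G → ℝ, IsLaw p → c * Df p ≤ Ib B p) (j : ℕ) :
    Df (cv B j) ≤ (1 - c) ^ j * Df B := by
  induction j with
  | zero => simp [cv]
  | succ j ih =>
    have h1 := h (cv B j) (cv_law hB j)
    have h2 : Df (cv B (j + 1)) = Df (cv B j) - Ib B (cv B j) := by
      show Df (conv (cv B j) B) = _
      unfold Df Ib
      ring
    rw [h2, pow_succ]
    have h3 : Df (cv B j) - Ib B (cv B j) ≤ (1 - c) * Df (cv B j) := by linarith
    have h4 : (1 - c) * Df (cv B j) ≤ (1 - c) * ((1 - c) ^ j * Df B) :=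
      mul_le_mul_of_nonneg_left ih (by linarith)
    linarith

theorem cv_supp (h2 : ∀ x : G, x + x = 0) (A : Finset G) (W : AddSubgroup G) (b : G)
    (B : W → ℝ) (hB : ∀ w : W, B w ≠ 0 → b + (w : G) ∈ A) (j : ℕ) :
    ∀ w : W, cv B j w ≠ 0 → (j + 1) • b + (w : G) ∈ sm A (j + 1) := by
  induction j with
  | zero =>
    intro w hw
    rw [show (0 + 1 : ℕ) = 1 from rfl, one_smul, sm_one]
    exact hB w hw
  | succ j ih =>
    intro w hw
    have h1 : ∃ y : W, cv B j y * B (w + y) ≠ 0 := by
      by_contra hcon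
      push Not at hcon
      apply hw
      show ∑ y, cv B j y * B (w + y) = 0
      exact sum_eq_zero fun y _ => hcon y
    obtain ⟨y, hy⟩ := h1
    have h3 := ih y (left_ne_zero_of_mul hy)
    have h4 := hB (w + y) (right_ne_zero_of_mul hy)
    rw [sm_succ]
    refine ⟨_, h3, _, h4, ?_⟩
    rw [AddSubgroup.coe_add, add_smul (j + 1) 1 b, one_smul]
    have h5 := h2 (y : G)
    calc (j + 1) • b + b + (w : G) = (j + 1) • b + b + (w : G) + ((y : G) + (y : G)) := by
          rw [h5, add_zero]
      _ = (j + 1) • b + (y : G) + (b + ((w : G) + (y : G))) := by abel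

end

/-- `m` summands, twice: linear codimension for `m ≥ C (1 + log (l / log 2))`. -/
theorem loglog : ∃ C : ℝ, 1 ≤ C ∧
    ∀ (G : Type) [AddCommGroup G] [Fintype G], (∀ x : G, x + x = 0) →
    ∀ (A : Finset G) (l : ℝ) (m : ℕ), A.Nonempty → log (Fintype.card G) - log A.card ≤ l →
    log 2 ≤ l → C * (1 + log (l / log 2)) ≤ m →
    ∃ W : AddSubgroup G, cod W ≤ 4 * l ∧ ∀ w ∈ W, ∃ s ∈ sm A m, ∃ t ∈ sm A m, w = s + t := by
  obtain ⟨c0, hc0, hsd⟩ := sdpi
  obtain ⟨c, hcd⟩ : ∃ c : ℝ, c = min c0 1 := ⟨_, rfl⟩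
  have hc : 0 < c := by rw [hcd]; exact lt_min hc0 one_pos
  have hc1 : c ≤ 1 := by rw [hcd]; exact min_le_right _ _
  have hcc : c ≤ c0 := by rw [hcd]; exact min_le_left _ _
  have hlog2 : (0 : ℝ) < log 2 := Real.log_pos (by norm_num)
  have h1c : 1 ≤ 1 / c := by rw [le_div_iff₀ hc]; linarith
  refine ⟨2 / c + 1, by have := hc; have : 0 ≤ 2 / c := by positivity
                        linarith, ?_⟩
  intro G _ _ h2 A l m hA hcA hl hm
  have hl0 : 0 < l := lt_of_lt_of_le hlog2 hl
  have hlam : 0 ≤ log (l / log 2) := Real.log_nonneg (by rw [le_div_iff₀ hlog2]; linarith)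
  obtain ⟨lam, hlamd⟩ : ∃ lam : ℝ, lam = log (l / log 2) := ⟨_, rfl⟩
  rw [← hlamd] at hlam hm
  have hm1 : (1 : ℝ) ≤ m := by
    have h1 : 0 ≤ 2 / c := by positivity
    nlinarith
  obtain ⟨j, rfl⟩ : ∃ j, m = j + 1 := ⟨m - 1, by
    have : 1 ≤ m := by exact_mod_cast hm1
    omega⟩
  have hj : lam < c * j := by
    push_cast at hm
    have h1 : 2 / c * (1 + lam) ≤ j := by nlinarith
    have h3 : c * (2 / c * (1 + lam)) ≤ c * j := mul_le_mul_of_nonneg_left h1 hc.le
    have h4 : c * (2 / c * (1 + lam)) = 2 * (1 + lam) := by field_simp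
    linarith
  have hun : IsLaw (un A) := Incr_un_law hA
  have hentA : ent (un A) = log (A.card : ℝ) := by
    have h0 : (0 : ℝ) < (A.card : ℝ) := by exact_mod_cast hA.card_pos
    unfold ent un
    have h1 : ∀ x : G, negMulLog (if x ∈ A then 1 / (A.card : ℝ) else 0) =
        if x ∈ A then negMulLog (1 / (A.card : ℝ)) else 0 := by
      intro x
      split_ifs
      · rfl
      · exact negMulLog_zero
    simp only [h1]
    rw [Finset.sum_ite_mem, Finset.univ_inter, Finset.sum_const, nsmul_eq_mul]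
    unfold negMulLog
    rw [log_div one_ne_zero h0.ne', log_one]
    field_simp
    ring
  obtain ⟨W, b, hpos, hsp, hDf⟩ := core2 thm_DW (un A) hun
  have hlaw := core_fw_law W hun b hpos
  have hDA : Df (un A) ≤ l := by
    unfold Df
    rw [hentA]
    exact hcA
  have hcod0 : 0 ≤ cod W := by
    unfold cod
    have h1 : (Nat.card W : ℝ) ≤ Fintype.card G := by
      rw [← Nat.card_eq_fintype_card]
      exact_mod_cast Nat.card_le_card_of_injective W.subtype W.subtype_injective
    have h3 : (0 : ℝ) < Nat.card W := by exact_mod_cast Nat.card_pos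
    have := log_le_log h3 h1
    linarith
  have hDB : Df (fw W (un A) b) ≤ l := by linarith
  have hDB0 : 0 ≤ Df (fw W (un A) b) := Df_nonneg hlaw
  refine ⟨W, by linarith, ?_⟩
  have hW2 : ∀ x : W, x + x = 0 := fun x => Subtype.ext (h2 x)
  have hcv := cv_Df hc1 hlaw (fun p hp => by
    have h1 := hsd W hW2 (fw W (un A) b) p hlaw hsp hp
    have h3 := Df_nonneg hp
    nlinarith) j
  have hsupp := cv_supp h2 A W b (fw W (un A) b) (by
    intro w hw
    refine Incr_un_mem (fun h0 => hw ?_)
    unfold fw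
    rw [h0, zero_div]) j
  have hpow : (1 - c) ^ j ≤ exp (-(c * j)) := by
    have h1 : 1 - c ≤ exp (-c) := by
      have := Real.add_one_le_exp (-c)
      linarith
    have h3 := pow_le_pow_left₀ (by linarith : 0 ≤ 1 - c) h1 j
    rw [← Real.exp_nat_mul] at h3
    refine h3.trans (le_of_eq ?_)
    congr 1
    ring
  have hexp : exp (-(c * j)) * l < log 2 := by
    have h1 : exp (-(c * j)) < exp (-lam) := Real.exp_lt_exp.2 (by linarith)
    have h3 : exp (-lam) * l = log 2 := by
      rw [hlamd, Real.exp_neg, Real.exp_log (by positivity)]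
      field_simp
    have h4 := mul_lt_mul_of_pos_right h1 hl0
    linarith
  have hDfj : Df (cv (fw W (un A) b) j) < log 2 := by
    have h1 : (1 - c) ^ j * Df (fw W (un A) b) ≤ exp (-(c * j)) * l :=
      mul_le_mul hpow hDB hDB0 (exp_pos _).le
    linarith
  have hS := Pool.Agent.DEN68.DNG_supp (cv_law hlaw j) (BRQ.slice (sm A (j + 1)) W ((j + 1) • b))
    (fun w hw => (fN_slice _ _ _ _).2 (hsupp w hw))
  refine half h2 W (sm A (j + 1)) ((j + 1) • b) ?_
  have hWp : (0 : ℝ) < (Nat.card W : ℝ) := by exact_mod_cast Nat.card_pos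
  have h5 : log (Nat.card W) < log (2 * ((BRQ.slice (sm A (j + 1)) W ((j + 1) • b)).card : ℝ)) := by
    rw [log_mul (by norm_num) hS.1.ne', Nat.card_eq_fintype_card]
    unfold Df at hDfj
    linarith [hS.2]
  exact (log_lt_log_iff hWp (by linarith [hS.1])).1 h5

end Pool.Agent.BRK
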