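import Pool.Agent.BRK.Asym2

/-!
MP_68cffc_co, many summands, part 3: adding the set `A` again and again.
-/

set_option autoImplicit false

namespace Pool.Agent.BRK

open Finset Real Pool.Agent.BR Pool.Agent.BRQ
open Pool.Agent.DEN68 (un)
open scoped Classical

section

variable {G : Type} [AddCommGroup G] [Fintype G]

/-- The sums of `j` elements of `A`. -/
noncomputable def sm (A : Finset G) : ℕ → Finset G
  | 0 => {0}
  | j + 1 => ss (sm A j) A

theorem sm_succ (A : Finset G) (j : ℕ) (x : G) :
    x ∈ sm A (j + 1) ↔ ∃ a ∈ sm A j, ∃ b ∈ A, x = a + b := mem_ss _ _ _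

theorem sm_one (A : Finset G) : sm A 1 = A := by
  ext x
  rw [sm_succ]
  constructor
  · rintro ⟨a, ha, b, hb, rfl⟩
    have h : a = 0 := mem_singleton.1 ha
    rw [h, zero_add]
    exact hb
  · intro hx
    exact ⟨0, mem_singleton.2 rfl, x, hx, (zero_add x).symm⟩

/-- some coset of `W` contains at least the average share of `A` -/
theorem exists_slice (W : AddSubgroup G) (A : Finset G) (hA : A.Nonempty) :
    ∃ b : G, (slice A W b).Nonempty ∧
      log (Fintype.card W) - log ((slice A W b).card : ℝ) ≤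
        log (Fintype.card G) - log (A.card : ℝ) := by
  have hAp : (0 : ℝ) < A.card := by exact_mod_cast hA.card_pos
  have hG : (0 : ℝ) < Fintype.card G := BR.card_pos
  have hW : (0 : ℝ) < Fintype.card W := BR.card_pos
  have hsum : ∑ b : G, ((slice A W b).card : ℝ) = A.card * Fintype.card W := by
    have e1 : ∀ b : G, ((slice A W b).card : ℝ) = ∑ w : W, if b + (w : G) ∈ A then (1 : ℝ) else 0 := by
      intro b
      unfold BRQ.slice
      rw [sum_boole]
    simp only [e1]
    rw [sum_comm]
    have e2 : ∀ w : W, ∑ b : G, (if b + (w : G) ∈ A then (1 : ℝ) else 0) = A.card := by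
      intro w
      rw [sum_shift (w : G) (fun x : G => if x ∈ A then (1 : ℝ) else 0), sum_boole]
      congr 1
      congr 1
      ext x
      simp
    simp only [e2]
    rw [sum_const, card_univ, nsmul_eq_mul]
    ring
  obtain ⟨b, hb⟩ : ∃ b : G, (A.card : ℝ) * Fintype.card W / Fintype.card G ≤
      ((slice A W b).card : ℝ) := by
    by_contra hcon
    push Not at hcon
    have h1 : ∑ b : G, ((slice A W b).card : ℝ) <
        ∑ _b : G, (A.card : ℝ) * Fintype.card W / Fintype.card G :=
      sum_lt_sum_of_nonempty ⟨0, mem_univ _⟩ fun b _ => hcon b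
    rw [hsum, sum_const, card_univ, nsmul_eq_mul, mul_div_cancel₀ _ hG.ne'] at h1
    exact lt_irrefl _ h1
  have hpos : (0 : ℝ) < (A.card : ℝ) * Fintype.card W / Fintype.card G := by positivity
  have hs : (0 : ℝ) < ((slice A W b).card : ℝ) := lt_of_lt_of_le hpos hb
  refine ⟨b, ?_, ?_⟩
  · rw [← Finset.card_pos]
    exact_mod_cast hs
  · have h1 := log_le_log hpos hb
    rw [log_div (by positivity) hG.ne', log_mul hAp.ne' hW.ne'] at h1
    linarith

/-- a slice of a slice -/
theorem slice_map (W : AddSubgroup G) (H : AddSubgroup W) (S : Finset G) (T : Finset W) (z : G)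
    (a : W) (h : ∀ w ∈ T, z + (w : G) ∈ S) :
    (slice T H a).card ≤ (slice S (H.map W.subtype) (z + (a : G))).card := by
  set E : H ≃+ H.map W.subtype := H.equivMapOfInjective W.subtype W.subtype_injective with hE
  refine card_le_card_of_injOn (fun x => E x) ?_ ?_
  · intro x hx
    have hx' := (fN_slice T H a x).1 (mem_coe.1 hx)
    have h1 := h _ hx'
    refine mem_coe.2 ((fN_slice S _ _ _).2 ?_)
    have e1 : ((E x : H.map W.subtype) : G) = ((x : W) : G) := rfl
    rw [e1, add_assoc, ← AddSubgroup.coe_add]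
    exact h1
  · intro x _ y _ hxy
    exact E.injective hxy

theorem cod_map (W : AddSubgroup G) (H : AddSubgroup W) :
    cod (H.map W.subtype) = cod W + cod H ∧
      (Nat.card (H.map W.subtype) : ℝ) = Nat.card H := by
  have hcard : Nat.card (H.map W.subtype) = Nat.card H :=
    Nat.card_congr (H.equivMapOfInjective W.subtype W.subtype_injective).symm.toEquiv
  refine ⟨?_, by rw [hcard]⟩
  unfold cod
  rw [hcard, Nat.card_eq_fintype_card (α := W)]
  ring

/-- more than half of a coset: two points with a given difference -/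
theorem half (h2 : ∀ x : G, x + x = 0) (W : AddSubgroup G) (S : Finset G) (z : G)
    (h : (Nat.card W : ℝ) < 2 * ((slice S W z).card : ℝ)) :
    ∀ w ∈ W, ∃ s ∈ S, ∃ t ∈ S, w = s + t := by
  intro w hw
  set T := slice S W z with hT
  set w' : W := ⟨w, hw⟩ with hw'
  have hcard : (T.image fun t => t + w').card = T.card :=
    card_image_of_injective _ (add_left_injective w')
  have hne : ¬ Disjoint T (T.image fun t => t + w') := by
    intro hd
    have h1 := card_union_of_disjoint hd
    have h3 : (T ∪ T.image fun t => t + w').card ≤ Fintype.card W := card_le_univ _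
    rw [h1, hcard] at h3
    rw [Nat.card_eq_fintype_card] at h
    have h4 : ((T.card + T.card : ℕ) : ℝ) ≤ Fintype.card W := by exact_mod_cast h3
    push_cast at h4
    linarith
  obtain ⟨t, ht, ht'⟩ := not_disjoint_iff.1 hne
  obtain ⟨s, hs, hst⟩ := mem_image.1 ht'
  have h5 := (fN_slice S W z t).1 ht
  have h6 := (fN_slice S W z s).1 hs
  refine ⟨z + (t : G), h5, z + (s : G), h6, ?_⟩
  have h7 : (t : G) = (s : G) + w := by
    rw [← hst]
    rfl
  have h8 := h2 z
  have h9 := h2 (s : G)
  calc w = (z + z) + ((s : G) + (s : G)) + w := by rw [h8, h9]; simp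
    _ = z + (t : G) + (z + (s : G)) := by rw [h7]; abel

end

/-- iteration of `agr` -/
theorem iter {C : ℝ} (hC : ∀ (G : Type) [AddCommGroup G] [Fintype G], (∀ x : G, x + x = 0) →
  ∀ (A B : Finset G) (d l eps : ℝ), A.Nonempty → B.Nonempty →
  log (Fintype.card G) - log A.card ≤ d → log (Fintype.card G) - log B.card ≤ l →
  log 2 ≤ l → 0 < d → d ≤ l → 0 < eps → eps ≤ 1 →
  ∃ (W : AddSubgroup G) (z : G), cod W ≤ C * (1 / eps) ^ C * l ∧
    exp (-(eps * d)) * (Nat.card W : ℝ) ≤
      ((BRQ.slice (ss A B) W z).card : ℝ))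
    (G : Type) [AddCommGroup G] [Fintype G] (h2 : ∀ x : G, x + x = 0) (A : Finset G) (l eps : ℝ)
    (hA : A.Nonempty) (hcA : log (Fintype.card G) - log A.card ≤ l) (hl : log 2 ≤ l)
    (he : 0 < eps) (he1 : eps ≤ 1) (m : ℕ) :
    ∃ (W : AddSubgroup G) (z : G), cod W ≤ m * (C * (1 / eps) ^ C * l) ∧
      exp (-(eps ^ m * l)) * (Nat.card W : ℝ) ≤ ((slice (sm A (m + 1)) W z).card : ℝ) := by
  have hlog2 : (0 : ℝ) < log 2 := Real.log_pos (by norm_num)
  have hl0 : 0 < l := lt_of_lt_of_le hlog2 hl
  induction m with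
  | zero =>
    refine ⟨⊤, 0, ?_, ?_⟩
    · unfold cod
      rw [AddSubgroup.card_top, Nat.card_eq_fintype_card, sub_self]
      simp
    · have hcard : A.card = (slice (sm A (0 + 1)) ⊤ 0).card := by
        rw [show (0 + 1 : ℕ) = 1 from rfl, sm_one]
        refine Finset.card_bij (fun x _ => (⟨x, AddSubgroup.mem_top x⟩ : (⊤ : AddSubgroup G)))
          ?_ ?_ ?_
        · intro x hx
          rw [fN_slice, zero_add]
          exact hx
        · intro x _ y _ hxy
          exact congrArg Subtype.val hxy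
        · intro w hw
          rw [fN_slice, zero_add] at hw
          exact ⟨w, hw, rfl⟩
      rw [← hcard, AddSubgroup.card_top, Nat.card_eq_fintype_card, pow_zero, one_mul]
      have hAp : (0 : ℝ) < A.card := by exact_mod_cast hA.card_pos
      have hG : (0 : ℝ) < Fintype.card G := BR.card_pos
      have e1 : -l + log (Fintype.card G) ≤ log (A.card : ℝ) := by linarith
      have e3 := Real.exp_le_exp.2 e1
      rwa [Real.exp_add, Real.exp_log hG, Real.exp_log hAp] at e3
  | succ m ih =>
    obtain ⟨W, z, hcod, hden⟩ := ih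
    have hW2 : ∀ x : W, x + x = 0 := fun x => Subtype.ext (h2 x)
    have hWp : (0 : ℝ) < (Nat.card W : ℝ) := by exact_mod_cast Nat.card_pos
    have hsp : (0 : ℝ) < ((slice (sm A (m + 1)) W z).card : ℝ) :=
      lt_of_lt_of_le (by positivity) hden
    have hsne : (slice (sm A (m + 1)) W z).Nonempty := by
      rw [← Finset.card_pos]
      exact_mod_cast hsp
    have hd : log (Fintype.card W) - log ((slice (sm A (m + 1)) W z).card : ℝ) ≤ eps ^ m * l := by
      have h1 := log_le_log (by positivity) hden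
      rw [log_mul (exp_pos _).ne' hWp.ne', log_exp, Nat.card_eq_fintype_card] at h1
      linarith
    obtain ⟨b, hbne, hb⟩ := exists_slice W A hA
    have hpow : 0 < eps ^ m := pow_pos he m
    have hpow1 : eps ^ m ≤ 1 := pow_le_one₀ he.le he1
    obtain ⟨H, z', hcH, hdH⟩ := hC W hW2 (slice (sm A (m + 1)) W z) (slice A W b) (eps ^ m * l) l
      eps hsne hbne hd (hb.trans hcA) hl (by positivity) (by nlinarith) he he1
    obtain ⟨T, hT, hdT⟩ : ∃ T : Finset W, (∀ w ∈ T, ∃ a ∈ BRQ.slice (sm A (m + 1)) W z,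
        ∃ b' ∈ BRQ.slice A W b, w = a + b') ∧ exp (-(eps * (eps ^ m * l))) * (Nat.card H : ℝ) ≤
        ((BRQ.slice T H z').card : ℝ) :=
      ⟨_, fun w hw => (mem_ss _ _ w).1 hw, hdH⟩
    obtain ⟨e1, e2⟩ := cod_map W H
    refine ⟨H.map W.subtype, z + b + (z' : G), ?_, ?_⟩
    · rw [e1]
      push_cast
      linarith
    · rw [e2]
      have h3 : exp (-(eps * (eps ^ m * l))) = exp (-(eps ^ (m + 1) * l)) := by
        congr 1
        ring
      rw [h3] at hdT
      refine hdT.trans (Nat.cast_le.2 (slice_map W H (sm A (m + 1 + 1)) T (z + b) z' ?_))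
      intro w hw
      obtain ⟨a, ha, b', hb', rfl⟩ := hT w hw
      rw [sm_succ]
      refine ⟨z + (a : G), (fN_slice _ _ _ _).1 ha, b + (b' : G), (fN_slice _ _ _ _).1 hb', ?_⟩
      rw [AddSubgroup.coe_add]
      abel

end Pool.Agent.BRK
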