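import Pool.Agent.BRK.AIter

/-!
MP_68cffc_co, many summands, part 8: the last step of the iteration is the quadratic step for
`A` and a part of `sm A m`.
-/

set_option autoImplicit false

namespace Pool.Agent.BRK

open Finset Real Pool.Agent.BR Pool.Agent.BRQ
open Pool.Agent.DEN68 (un)
open scoped Classical

/-- `m + 1` summands, twice: codimension `C m (l / log 2)^(C / (C + m - 1)) l`. -/
theorem power2 : ∃ C : ℝ, 1 ≤ C ∧
    ∀ (G : Type) [AddCommGroup G] [Fintype G], (∀ x : G, x + x = 0) →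
    ∀ (A : Finset G) (l : ℝ) (r : ℕ), A.Nonempty → log (Fintype.card G) - log A.card ≤ l →
    log 2 ≤ l →
    ∃ W : AddSubgroup G, cod W ≤ (r + 1) * (C * (l / log 2) ^ (C / (C + r)) * l) ∧
      ∀ w ∈ W, ∃ s ∈ sm A (r + 2), ∃ t ∈ sm A (r + 2), w = s + t := by
  obtain ⟨C1, hC1, hagr⟩ := agr
  obtain ⟨C2, hC2, hq⟩ := aquad
  refine ⟨C1 + C2, by linarith, ?_⟩
  intro G _ _ h2 A l r hA hcA hl
  have hlog2 : (0 : ℝ) < log 2 := Real.log_pos (by norm_num)
  have hlog2' : log 2 ≤ 1 := by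
    have := Real.log_two_lt_d9
    linarith
  have hlog16 : 1 / 16 ≤ log 2 := by
    have := Real.log_two_gt_d9
    linarith
  have hl0 : 0 < l := lt_of_lt_of_le hlog2 hl
  have hr0 : (0 : ℝ) ≤ r := Nat.cast_nonneg r
  obtain ⟨x, hx⟩ : ∃ x : ℝ, x = l / log 2 := ⟨_, rfl⟩
  have hx1 : 1 ≤ x := by
    rw [hx, le_div_iff₀ hlog2]
    linarith
  have hx0 : 0 < x := by linarith
  have hlx : l = log 2 * x := by
    rw [hx]
    field_simp
  obtain ⟨a, ha⟩ : ∃ a : ℝ, a = C1 + r := ⟨_, rfl⟩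
  have ha0 : 0 < a := by rw [ha]; linarith
  obtain ⟨eps, heps⟩ : ∃ eps : ℝ, eps = (1 / x) ^ (1 / a) := ⟨_, rfl⟩
  have he : 0 < eps := by rw [heps]; positivity
  have he1 : eps ≤ 1 := by
    rw [heps]
    exact Real.rpow_le_one (by positivity) (by rw [div_le_one hx0]; exact hx1) (by positivity)
  have hec : (1 / eps) ^ C1 = x ^ (C1 / a) := by
    rw [heps, one_div, ← Real.inv_rpow (by positivity), one_div, inv_inv, ← Real.rpow_mul hx0.le]
    congr 1
    ring
  have hem : eps ^ r * x = x ^ (C1 / a) := by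
    have e1 : eps ^ r = x ^ (-(r / a)) := by
      rw [heps, ← Real.rpow_natCast, ← Real.rpow_mul (by positivity), one_div x,
        Real.inv_rpow hx0.le, ← Real.rpow_neg hx0.le]
      congr 1
      ring
    have e2 : x ^ (-(r / a)) * x = x ^ (-(r / a) + 1) := by
      rw [Real.rpow_add hx0, Real.rpow_one]
    rw [e1, e2]
    congr 1
    rw [ha]
    rw [ha] at ha0
    field_simp
    ring
  obtain ⟨y, hy⟩ : ∃ y : ℝ, y = x ^ (C1 / a) := ⟨_, rfl⟩
  have hy1 : 1 ≤ y := by
    rw [hy]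
    exact Real.one_le_rpow hx1 (by positivity)
  have heml : eps ^ r * l = log 2 * y := by
    rw [hy, ← hem, hlx]
    ring
  obtain ⟨W, z, h3, h4⟩ := iter hagr G h2 A l eps hA hcA hl he he1 r
  rw [hec, ← hy] at h3
  rw [heml] at h4
  have hW2 : ∀ x : W, x + x = 0 := fun x => Subtype.ext (h2 x)
  have hWp : (0 : ℝ) < (Nat.card W : ℝ) := by exact_mod_cast Nat.card_pos
  have hsp : (0 : ℝ) < ((slice (sm A (r + 1)) W z).card : ℝ) :=
    lt_of_lt_of_le (by positivity) h4
  have hsne : (slice (sm A (r + 1)) W z).Nonempty := by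
    rw [← Finset.card_pos]
    exact_mod_cast hsp
  have hd : log (Fintype.card W) - log ((slice (sm A (r + 1)) W z).card : ℝ) ≤ log 2 * y := by
    have h1 := log_le_log (by positivity) h4
    rw [log_mul (exp_pos _).ne' hWp.ne', log_exp, Nat.card_eq_fintype_card] at h1
    linarith
  obtain ⟨b, hbne, hb⟩ := exists_slice W A hA
  have hyl : log 2 * y ≤ l := by
    have e1 : y ≤ x := by
      rw [hy]
      calc x ^ (C1 / a) ≤ x ^ (1 : ℝ) := by
            refine Real.rpow_le_rpow_of_exponent_le hx1 ?_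
            rw [div_le_one ha0, ha]
            linarith
        _ = x := Real.rpow_one x
    rw [hlx]
    exact mul_le_mul_of_nonneg_left e1 hlog2.le
  obtain ⟨H, z', hcH, hdH⟩ := hq W hW2 (slice A W b) (slice (sm A (r + 1)) W z) l (log 2 * y)
    hbne hsne (hb.trans hcA) hd (by nlinarith) hyl
  obtain ⟨T, hT, hdT⟩ : ∃ T : Finset W, (∀ w ∈ T, ∃ a ∈ BRQ.slice A W b,
      ∃ b' ∈ BRQ.slice (sm A (r + 1)) W z, w = a + b') ∧
      (Nat.card H : ℝ) < 2 * ((BRQ.slice T H z').card : ℝ) :=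
    ⟨_, fun w hw => (mem_ss _ _ w).1 hw, hdH⟩
  obtain ⟨e1, e2⟩ := cod_map W H
  refine ⟨H.map W.subtype, ?_, half h2 (H.map W.subtype) (sm A (r + 2)) (z + b + (z' : G)) ?_⟩
  · rw [e1]
    have f0 : x ^ (C1 / a) ≤ x ^ ((C1 + C2) / (C1 + C2 + r)) := by
      refine Real.rpow_le_rpow_of_exponent_le hx1 ?_
      rw [ha, div_le_div_iff₀ (by linarith) (by linarith)]
      nlinarith
    rw [← hy] at f0
    rw [← hx]
    obtain ⟨u, hu⟩ : ∃ u : ℝ, u = x ^ ((C1 + C2) / (C1 + C2 + r)) := ⟨_, rfl⟩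
    rw [← hu] at f0 ⊢
    have hu0 : 0 ≤ u := by linarith
    have f1 : r * (C1 * y * l) ≤ r * (C1 * u * l) :=
      mul_le_mul_of_nonneg_left (mul_le_mul_of_nonneg_right
        (mul_le_mul_of_nonneg_left f0 (by linarith)) hl0.le) hr0
    have f2 : C2 * (l * (log 2 * y)) ≤ C2 * u * l := by
      have g1 : log 2 * y ≤ u := by nlinarith
      calc C2 * (l * (log 2 * y)) ≤ C2 * (l * u) :=
            mul_le_mul_of_nonneg_left (mul_le_mul_of_nonneg_left g1 hl0.le) (by linarith)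
        _ = C2 * u * l := by ring
    have f3 : 0 ≤ u * l := by positivity
    have f4 : ((r : ℝ) + 1) * ((C1 + C2) * u * l) =
        r * (C1 * u * l) + C2 * u * l + (r * C2 + C1) * (u * l) := by ring
    have f5 : 0 ≤ ((r : ℝ) * C2 + C1) * (u * l) := by positivity
    rw [f4]
    linarith
  · rw [e2]
    have h5 : (slice T H z').card ≤
        (slice (sm A (r + 2)) (H.map W.subtype) (z + b + (z' : G))).card := by
      refine slice_map W H (sm A (r + 2)) T (z + b) z' ?_
      intro w hw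
      obtain ⟨a', ha', b', hb', rfl⟩ := hT w hw
      rw [sm_succ]
      refine ⟨z + (b' : G), (fN_slice _ _ _ _).1 hb', b + (a' : G), (fN_slice _ _ _ _).1 ha', ?_⟩
      rw [AddSubgroup.coe_add]
      abel
    have h6 : ((slice T H z').card : ℝ) ≤
        ((slice (sm A (r + 2)) (H.map W.subtype) (z + b + (z' : G))).card : ℝ) :=
      Nat.cast_le.2 h5
    linarith

end Pool.Agent.BRK
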